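import Pool.Agent.Work.MP_9999b5_mr.Interface
import Pool.Agent.Work.MP_9999b5_ms_helper84.Div
import Pool.Agent.Work.MP_9999b5_ms_helper84.Transfer4
import Pool.Agent.Work.MP_9999b5_ms_helper93.Recursion

/-!
Block FIN of `mmr_blocks` (MP_9999b5_co): the result for `T ∣ k`, `n ≡ T` modulo `k`.
-/

set_option autoImplicit false

namespace Pool.Agent.Work.MP_9999b5_mr

open Finset

/-- the recursion, from `4k + T` to `4k + T + j k` -/
theorem FIN_rec (k T : ℕ) (hk : 1 ≤ k)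
    (h : Pool.Agent.Work.MaxSums.W k (4 * k + T) ((k : ℝ) / (4 * k + T))) (j : ℕ) :
    Pool.Agent.Work.MaxSums.W k (4 * k + T + j * k) ((k : ℝ) / ((4 * k + T + j * k : ℕ) : ℝ)) := by
  induction j with
  | zero =>
    have e : (((4 * k + T + 0 * k : ℕ) : ℝ)) = 4 * (k : ℝ) + T := by push_cast; ring
    rw [e, Nat.zero_mul, Nat.add_zero]
    exact h
  | succ j ih =>
    have h1 := Pool.Agent.Work.MaxSums.helper93Recursion.holds k (4 * k + T + j * k) _
      (by omega) (by positivity) ih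
    have hk0 : (0 : ℝ) < k := by exact_mod_cast hk
    have hN : (0 : ℝ) < ((4 * k + T + j * k : ℕ) : ℝ) := by
      exact_mod_cast (by omega : 0 < 4 * k + T + j * k)
    have e2 : 4 * k + T + j * k + k = 4 * k + T + (j + 1) * k := by ring
    have e : (k : ℝ) / ((4 * k + T + j * k : ℕ) : ℝ) / (1 + (k : ℝ) / ((4 * k + T + j * k : ℕ) : ℝ))
        = (k : ℝ) / ((4 * k + T + (j + 1) * k : ℕ) : ℝ) := by
      rw [← e2]
      push_cast
      push_cast at hN
      field_simp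
    rw [e, e2] at h1
    exact h1

/-- `k / n * C(n, k) = C(n - 1, k - 1)` -/
theorem FIN_choose (k n : ℕ) (hk : 1 ≤ k) (hn : 1 ≤ n) :
    (k : ℝ) / (n : ℝ) * (n.choose k : ℝ) = ((n - 1).choose (k - 1) : ℝ) := by
  obtain ⟨l, rfl⟩ : ∃ l, k = l + 1 := ⟨k - 1, by omega⟩
  obtain ⟨M, rfl⟩ : ∃ M, n = M + 1 := ⟨n - 1, by omega⟩
  simp only [Nat.add_sub_cancel]
  have h3 := Nat.add_one_mul_choose_eq M l
  have h4 : (((M + 1 : ℕ) : ℝ)) * (M.choose l : ℝ)
      = ((M + 1).choose (l + 1) : ℝ) * ((l + 1 : ℕ) : ℝ) := by exact_mod_cast h3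
  have h5 : (0 : ℝ) < ((M + 1 : ℕ) : ℝ) := by positivity
  rw [div_mul_eq_mul_div, div_eq_iff h5.ne', mul_comm ((l + 1 : ℕ) : ℝ), ← h4, mul_comm]

/-- the number of positive sets -/
theorem FIN_pos (hL : Stmt_LIF) (hR : Stmt_RED) (k n T : ℕ) (hk : 1 ≤ k) (hn : 4 * k ≤ n)
    (hT : T ∣ k) (hm : n ≡ T [MOD k]) (ι : Type) [DecidableEq ι] (A : Finset ι) (x : ι → ℝ)
    (hA : A.card = n) (hinj : Set.InjOn x A) (hs : 0 ≤ ∑ i ∈ A, x i) :
    (n - 1).choose (k - 1) ≤ Pool.Agent.Work.MaxSums.pos x A k := by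
  have hT1 : 1 ≤ T := Nat.pos_of_dvd_of_pos hT hk
  have hTk : T ≤ k := Nat.le_of_dvd hk hT
  rcases Nat.lt_or_ge T k with hlt | hge
  · obtain ⟨u, hu⟩ := hT
    have hu1 : 1 ≤ u := by
      rcases Nat.eq_zero_or_pos u with h | h
      · subst h; omega
      · exact h
    have hku : u * T = k := by rw [hu]; ring
    have hL' := hL u T hu1 hT1
    rw [hku] at hL'
    have hW := hR k T hk hL'.1 hL'.2
    -- n = 4k + T + jk
    have hmod : n % k = T := by
      have := hm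
      unfold Nat.ModEq at this
      rw [this, Nat.mod_eq_of_lt hlt]
    have hdiv := Nat.div_add_mod n k
    rw [hmod] at hdiv
    have h4 : 4 ≤ n / k := (Nat.le_div_iff_mul_le hk).2 hn
    obtain ⟨j, hj⟩ : ∃ j, n / k = 4 + j := ⟨n / k - 4, by omega⟩
    rw [hj] at hdiv
    have hnj : 4 * k + T + j * k = n := by rw [← hdiv]; ring
    have h1 := FIN_rec k T hk hW j ι A x (by rw [hA, hnj]) hinj hs
    rw [hnj, FIN_choose k n hk (by omega)] at h1
    exact_mod_cast h1
  · have hTk' : T = k := le_antisymm hTk hge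
    subst hTk'
    have hdvd : T ∣ n := by
      have h0 : n ≡ 0 [MOD T] := hm.trans (by simp [Nat.ModEq])
      exact (Nat.modEq_zero_iff_dvd).1 h0
    exact Pool.Agent.Work.MaxSums.helper84Div.pos_ge
      Pool.Agent.Work.MaxSums.helper93Recursion.holds T n hk hn hdvd A x hA hinj hs

theorem p_FIN : Stmt_LIF → Stmt_RED → Stmt_FIN := by
  intro hL hR k n T hk hn hT hm
  have hG : IsGreatest (Pool.Agent.Work.MaxSums.values k n) ((n - 1).choose k) := by
    refine Pool.Agent.Work.MaxSums.isGreatest_of k n hk (by omega) (fun A hA hs => ?_)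
    exact FIN_pos hL hR k n T hk hn hT hm ℝ A (fun a => -a) hA
      (fun a _ b _ h => neg_injective h) (by rw [Finset.sum_neg_distrib, hs, neg_zero])
  exact ⟨hG, Pool.Agent.Work.MaxSums.Transfer.MMS_of_greatest hk (by omega) hG⟩

end Pool.Agent.Work.MP_9999b5_mr
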