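import Pool.Agent.Work.MP_9999b5_mr.Interface

/-! # Block LED: light edges (helper40) -/

set_option autoImplicit false

namespace Pool.Agent.Work.MP_9999b5_mr

open Finset

lemma LED_cnt {ι : Type} [DecidableEq ι] (C H P : Finset ι) (k j : ℕ) (hC : C.card = 2 * k + 1)
    (hH : H ⊆ C) (hP : P ⊆ C) (hk : P.card = k) (hj : (P ∩ H).card = j) :
    ((C \ P) \ H).card = k + 1 + j - H.card ∧ (H \ P).card = H.card - j := by
  have h1 : (C \ P).card = k + 1 := by rw [card_sdiff_of_subset hP]; omega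
  have h2 := card_inter_add_card_sdiff (C \ P) H
  have h3 : (C \ P) ∩ H = H \ P := by
    ext a
    simp only [mem_inter, mem_sdiff]
    constructor
    · rintro ⟨⟨_, a2⟩, a3⟩
      exact ⟨a3, a2⟩
    · rintro ⟨a1, a2⟩
      exact ⟨⟨hH a1, a2⟩, a1⟩
  have h4 := card_inter_add_card_sdiff H P
  rw [h3] at h2
  rw [inter_comm] at h4
  omega

/-- LED. -/
theorem p_LED : Stmt_LED := by
  intro ι _ C x k j hC hj
  classical
  have hHC : Hv C x ⊆ C := filter_subset _ _
  generalize hH : Hv C x = H at hHC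
  unfold NN GG
  rw [hH]
  rw [hH] at hj
  have hx : ∀ y ∈ C, y ∉ H → x y < ∑ i ∈ C, x i := by
    intro y hy h
    rw [← hH] at h
    by_contra h2
    exact h (mem_filter.2 ⟨hy, not_lt.1 h2⟩)
  have hcard : ∀ (s : Finset (Finset ι)) (l : ℕ),
      (∀ P ∈ s, P ∈ C.powersetCard k ∧ (P ∩ H).card = l) →
      (s.sigma (fun P => (C \ P) \ H)).card = s.card * (k + 1 + l - H.card) := by
    intro s l hs
    rw [card_sigma, sum_const_nat (m := k + 1 + l - H.card)]
    intro P hP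
    obtain ⟨h1, h2⟩ := hs P hP
    rw [mem_powersetCard] at h1
    exact (LED_cnt C H P k l hC hHC h1.1 h1.2 h2).1
  have hA := hcard ((C.powersetCard k).filter (fun P => (P ∩ H).card = j)) j
    (fun P hP => mem_filter.1 hP)
  have hA1 := hcard ((C.powersetCard k).filter (fun P => (P ∩ H).card = j ∧ 0 < ∑ i ∈ P, x i)) j
    (fun P hP => ⟨(mem_filter.1 hP).1, (mem_filter.1 hP).2.1⟩)
  have hB := hcard ((C.powersetCard k).filter
      (fun P => (P ∩ H).card = H.card - j ∧ 0 < ∑ i ∈ P, x i)) (H.card - j)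
    (fun P hP => ⟨(mem_filter.1 hP).1, (mem_filter.1 hP).2.1⟩)
  have hj2 : k + 1 + (H.card - j) - H.card = k + 1 - j := by omega
  rw [hj2] at hB
  rw [← hA, ← hA1, ← hB]
  set A : Finset (Σ _ : Finset ι, ι) :=
    ((C.powersetCard k).filter (fun P => (P ∩ H).card = j)).sigma (fun P => (C \ P) \ H) with hAd
  set A1 : Finset (Σ _ : Finset ι, ι) := ((C.powersetCard k).filter
    (fun P => (P ∩ H).card = j ∧ 0 < ∑ i ∈ P, x i)).sigma (fun P => (C \ P) \ H) with hA1d
  set B : Finset (Σ _ : Finset ι, ι) := ((C.powersetCard k).filter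
    (fun P => (P ∩ H).card = H.card - j ∧ 0 < ∑ i ∈ P, x i)).sigma (fun P => (C \ P) \ H) with hBd
  have hsub : A ⊆ A1 ∪ A.filter (fun r => 0 < ∑ i ∈ (C \ r.1).erase r.2, x i) := by
    rintro ⟨P, y⟩ hr
    have hr0 := hr
    rw [hAd, mem_sigma, mem_filter, mem_powersetCard, mem_sdiff, mem_sdiff] at hr
    obtain ⟨⟨⟨h1, h2⟩, h3⟩, ⟨h4, h5⟩, h6⟩ := hr
    rw [mem_union]
    by_cases h7 : 0 < ∑ i ∈ P, x i
    · left
      rw [hA1d, mem_sigma, mem_filter, mem_powersetCard, mem_sdiff, mem_sdiff]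
      exact ⟨⟨⟨h1, h2⟩, h3, h7⟩, ⟨h4, h5⟩, h6⟩
    · right
      rw [mem_filter]
      refine ⟨hr0, ?_⟩
      have e1 := sum_sdiff (f := x) h1
      have e2 := add_sum_erase (C \ P) x (mem_sdiff.2 ⟨h4, h5⟩)
      have e3 := hx y h4 h6
      show 0 < ∑ i ∈ (C \ P).erase y, x i
      linarith [not_lt.1 h7]
  have hinj : (A.filter (fun r => 0 < ∑ i ∈ (C \ r.1).erase r.2, x i)).card ≤ B.card := by
    refine card_le_card_of_injOn (fun r => ⟨(C \ r.1).erase r.2, r.2⟩) ?_ ?_
    · rintro ⟨P, y⟩ hr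
      rw [mem_coe, mem_filter, hAd, mem_sigma, mem_filter, mem_powersetCard, mem_sdiff,
        mem_sdiff] at hr
      obtain ⟨⟨⟨⟨h1, h2⟩, h3⟩, ⟨h4, h5⟩, h6⟩, h7⟩ := hr
      rw [mem_coe, hBd, mem_sigma, mem_filter, mem_powersetCard, mem_sdiff, mem_sdiff]
      have hc := LED_cnt C H P k j hC hHC h1 h2 h3
      refine ⟨⟨⟨(erase_subset _ _).trans sdiff_subset, ?_⟩, ?_, h7⟩, ⟨h4, ?_⟩, h6⟩
      · show ((C \ P).erase y).card = k
        have h1' : P ⊆ C := h1
        have h2' : P.card = k := h2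
        have e1 : (C \ P).card = k + 1 := by
          rw [card_sdiff_of_subset h1']
          omega
        rw [card_erase_of_mem (mem_sdiff.2 ⟨h4, h5⟩), e1]
        rfl
      · show ((C \ P).erase y ∩ H).card = H.card - j
        rw [← hc.2]
        congr 1
        ext a
        simp only [mem_inter, mem_erase, mem_sdiff]
        constructor
        · rintro ⟨⟨_, _, a2⟩, a3⟩
          exact ⟨a3, a2⟩
        · rintro ⟨a1, a2⟩
          refine ⟨⟨?_, hHC a1, a2⟩, a1⟩
          rintro rfl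
          exact h6 a1
      · show y ∉ (C \ P).erase y
        exact notMem_erase _ _
    · rintro ⟨P, y⟩ hr ⟨P', y'⟩ hr' heq
      rw [mem_coe, mem_filter, hAd, mem_sigma, mem_filter, mem_powersetCard, mem_sdiff,
        mem_sdiff] at hr hr'
      obtain ⟨⟨⟨⟨h1, h2⟩, h3⟩, ⟨h4, h5⟩, h6⟩, h7⟩ := hr
      obtain ⟨⟨⟨⟨h1', h2'⟩, h3'⟩, ⟨h4', h5'⟩, h6'⟩, h7'⟩ := hr'
      simp only [Sigma.mk.injEq, heq_eq_eq] at heq
      obtain ⟨g1, g2⟩ := heq
      subst g2
      have hb : ∀ Q : Finset ι, Q ⊆ C → y ∉ Q → (C \ (C \ Q).erase y).erase y = Q := by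
        intro Q hQ hy
        ext a
        simp only [mem_erase, mem_sdiff, not_and, not_not]
        constructor
        · rintro ⟨a1, a2, a3⟩
          exact a3 a1 a2
        · intro ha
          refine ⟨?_, hQ ha, fun _ _ => ha⟩
          rintro rfl
          exact hy ha
      have e : P = P' := by rw [← hb P h1 h5, ← hb P' h1' h5', g1]
      rw [e]
  calc A.card ≤ (A1 ∪ A.filter (fun r => 0 < ∑ i ∈ (C \ r.1).erase r.2, x i)).card :=
        card_le_card hsub
    _ ≤ A1.card + (A.filter (fun r => 0 < ∑ i ∈ (C \ r.1).erase r.2, x i)).card :=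
        card_union_le _ _
    _ ≤ A1.card + B.card := by omega

end Pool.Agent.Work.MP_9999b5_mr
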