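import Pool.Agent.Work.MP_9999b5_mr.Interface

/-!
Block ORB (helper52): the symmetric group acts transitively on the pairs of disjoint sets.
-/

set_option autoImplicit false

namespace Pool.Agent.Work.MP_9999b5_mr

open Finset

lemma ORB_card {α : Type} [Fintype α] [DecidableEq α] {A B : Finset α} (h : Disjoint A B)
    (a b : Bool) :
    (univ.filter (fun i : α => (decide (i ∈ A), decide (i ∈ B)) = (a, b))).card =
      if a then (if b then 0 else A.card) else
        (if b then B.card else Fintype.card α - (A.card + B.card)) := by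
  have hn : ∀ i, i ∈ A → i ∉ B := fun i h1 h2 => (Finset.disjoint_left.1 h) h1 h2
  cases a <;> cases b
  · have e : univ.filter (fun i : α => (decide (i ∈ A), decide (i ∈ B)) = (false, false)) =
        (A ∪ B)ᶜ := by
      ext i; simp
    rw [e, card_compl, card_union_of_disjoint h]
    simp
  · have e : univ.filter (fun i : α => (decide (i ∈ A), decide (i ∈ B)) = (false, true)) = B := by
      ext i
      simp only [mem_filter, mem_univ, true_and, Prod.mk.injEq, decide_eq_false_iff_not,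
        decide_eq_true_eq]
      exact ⟨fun h => h.2, fun h => ⟨fun h1 => hn i h1 h, h⟩⟩
    rw [e]
    simp
  · have e : univ.filter (fun i : α => (decide (i ∈ A), decide (i ∈ B)) = (true, false)) = A := by
      ext i
      simp only [mem_filter, mem_univ, true_and, Prod.mk.injEq, decide_eq_false_iff_not,
        decide_eq_true_eq]
      exact ⟨fun h => h.1, fun h => ⟨h, hn i h⟩⟩
    rw [e]
    simp
  · have e : univ.filter (fun i : α => (decide (i ∈ A), decide (i ∈ B)) = (true, true)) = ∅ := by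
      ext i
      simp only [mem_filter, mem_univ, true_and, Prod.mk.injEq, decide_eq_true_eq, notMem_empty,
        iff_false]
      exact fun h => hn i h.1 h.2
    rw [e]
    simp

lemma ORB_perm {α : Type} [Fintype α] [DecidableEq α] {A B A' B' : Finset α} (hd : Disjoint A B)
    (hd' : Disjoint A' B') (h1 : A.card = A'.card) (h2 : B.card = B'.card) :
    ∃ π : Equiv.Perm α, (∀ i, π i ∈ A' ↔ i ∈ A) ∧ (∀ i, π i ∈ B' ↔ i ∈ B) := by
  have key : ∀ x : Bool × Bool,
      Nonempty ({i : α // (decide (i ∈ A), decide (i ∈ B)) = x} ≃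
        {i : α // (decide (i ∈ A'), decide (i ∈ B')) = x}) := by
    rintro ⟨a, b⟩
    refine ⟨Fintype.equivOfCardEq ?_⟩
    rw [Fintype.card_subtype, Fintype.card_subtype, ORB_card hd, ORB_card hd', h1, h2]
  obtain ⟨f⟩ : Nonempty (∀ x : Bool × Bool, {i : α // (decide (i ∈ A), decide (i ∈ B)) = x} ≃
      {i : α // (decide (i ∈ A'), decide (i ∈ B')) = x}) := ⟨fun x => (key x).some⟩
  have hm : ∀ i, (decide (Equiv.ofFiberEquiv f i ∈ A'), decide (Equiv.ofFiberEquiv f i ∈ B')) =
      (decide (i ∈ A), decide (i ∈ B)) := fun i =>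
    Equiv.ofFiberEquiv_map (f := fun i : α => (decide (i ∈ A), decide (i ∈ B)))
      (g := fun i : α => (decide (i ∈ A'), decide (i ∈ B'))) f i
  refine ⟨Equiv.ofFiberEquiv f, fun i => ?_, fun i => ?_⟩
  · have := (Prod.mk.injEq _ _ _ _ ▸ hm i : _ ∧ _).1
    exact decide_eq_decide.1 this
  · have := (Prod.mk.injEq _ _ _ _ ▸ hm i : _ ∧ _).2
    exact decide_eq_decide.1 this

lemma ORB_mem {ι : Type} [DecidableEq ι] {C : Finset ι} {u T : ℕ}
    {e : Fin (2 * u + 1) × Fin T ≃ {i // i ∈ C}} {J : Finset (Fin (2 * u + 1))}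
    (i : {i // i ∈ C}) : (i : ι) ∈ blk C u T e J ↔ (e.symm i).1 ∈ J := by
  unfold blk
  rw [mem_image]
  constructor
  · rintro ⟨q, hq, hqi⟩
    have : e q = i := Subtype.ext hqi
    rw [← this, Equiv.symm_apply_apply]
    exact (mem_product.1 hq).1
  · intro h
    exact ⟨e.symm i, mem_product.2 ⟨h, mem_univ _⟩, by rw [Equiv.apply_symm_apply]⟩

lemma ORB_sub {ι : Type} [DecidableEq ι] {C : Finset ι} {u T : ℕ}
    {e : Fin (2 * u + 1) × Fin T ≃ {i // i ∈ C}} {J : Finset (Fin (2 * u + 1))} :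
    blk C u T e J ⊆ C := by
  intro i hi
  unfold blk at hi
  rw [mem_image] at hi
  obtain ⟨q, _, rfl⟩ := hi
  exact (e q).2

lemma ORB_eq {ι : Type} [DecidableEq ι] {C : Finset ι} {u T : ℕ}
    {e : Fin (2 * u + 1) × Fin T ≃ {i // i ∈ C}} {J : Finset (Fin (2 * u + 1))} {P : Finset ι}
    (hP : P ⊆ C) : blk C u T e J = P ↔ ∀ i : {i // i ∈ C}, (e.symm i).1 ∈ J ↔ (i : ι) ∈ P := by
  constructor
  · intro h i
    rw [← h, ORB_mem]
  · intro h
    ext i
    constructor
    · intro hi
      have hiC := ORB_sub hi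
      exact (h ⟨i, hiC⟩).1 ((ORB_mem ⟨i, hiC⟩).1 hi)
    · intro hi
      exact (ORB_mem ⟨i, hP hi⟩).2 ((h ⟨i, hP hi⟩).2 hi)

lemma ORB_trans {ι : Type} [DecidableEq ι] {C : Finset ι} {u T : ℕ}
    {e : Fin (2 * u + 1) × Fin T ≃ {i // i ∈ C}} {J : Finset (Fin (2 * u + 1))}
    {P P' : Finset ι} (hP : P ⊆ C) (hP' : P' ⊆ C) {π : Equiv.Perm {i // i ∈ C}}
    (hπ : ∀ i : {i // i ∈ C}, ((π i : ι) ∈ P' ↔ (i : ι) ∈ P)) (h : blk C u T e J = P) :
    blk C u T (e.trans π) J = P' := by
  rw [ORB_eq hP] at h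
  rw [ORB_eq hP']
  intro i
  have h1 : (e.trans π).symm i = e.symm (π.symm i) := rfl
  rw [h1, h (π.symm i), ← hπ (π.symm i), Equiv.apply_symm_apply]

theorem p_ORB (hB : Stmt_BSU) : Stmt_ORB := by
  classical
  intro ι _ C u T hC
  set E : Finset ((Fin (2 * u + 1) × Fin T ≃ {i // i ∈ C}) ×
      (Finset (Fin (2 * u + 1)) × Finset (Fin (2 * u + 1)))) :=
    univ ×ˢ prs (univ : Finset (Fin (2 * u + 1))) u with hE
  set g : (Fin (2 * u + 1) × Fin T ≃ {i // i ∈ C}) ×
      (Finset (Fin (2 * u + 1)) × Finset (Fin (2 * u + 1))) → Finset ι × Finset ι :=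
    fun x => (blk C u T x.1 x.2.1, blk C u T x.1 x.2.2) with hg
  -- the pairs of blocks are pairs
  have hmaps : ∀ x ∈ E, g x ∈ prs C (u * T) := by
    rintro ⟨e, p⟩ hx
    rw [hE, mem_product] at hx
    have hp := hx.2
    unfold prs at hp ⊢
    rw [mem_filter, mem_product, mem_powersetCard, mem_powersetCard] at hp
    rw [mem_filter, mem_product, mem_powersetCard, mem_powersetCard]
    refine ⟨⟨⟨ORB_sub, ?_⟩, ⟨ORB_sub, ?_⟩⟩, ?_⟩
    · exact ((hB ι C (fun _ => 0) u T e p.1).2).trans (by rw [hp.1.1.2])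
    · exact ((hB ι C (fun _ => 0) u T e p.2).2).trans (by rw [hp.1.2.2])
    · rw [Finset.disjoint_left]
      intro i h1 h2
      have hiC := ORB_sub h1
      have h3 := (ORB_mem ⟨i, hiC⟩).1 h1
      have h4 := (ORB_mem ⟨i, hiC⟩).1 h2
      exact (Finset.disjoint_left.1 hp.2) h3 h4
  -- the fibres have the same size
  have hle : ∀ P ∈ prs C (u * T), ∀ P' ∈ prs C (u * T),
      (E.filter (fun x => g x = P)).card ≤ (E.filter (fun x => g x = P')).card := by
    intro P hP P' hP'
    unfold prs at hP hP'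
    rw [mem_filter, mem_product, mem_powersetCard, mem_powersetCard] at hP hP'
    obtain ⟨⟨⟨a1, a2⟩, ⟨a3, a4⟩⟩, a5⟩ := hP
    obtain ⟨⟨⟨b1, b2⟩, ⟨b3, b4⟩⟩, b5⟩ := hP'
    have hcard : ∀ Q : Finset ι, Q ⊆ C →
        (univ.filter (fun i : {i // i ∈ C} => (i : ι) ∈ Q)).card = Q.card := by
      intro Q hQ
      refine Finset.card_bij (fun i _ => (i : ι)) (fun i hi => (mem_filter.1 hi).2)
        (fun i _ j _ h => Subtype.ext h) (fun i hi => ⟨⟨i, hQ hi⟩, ?_, rfl⟩)
      exact mem_filter.2 ⟨mem_univ _, hi⟩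
    obtain ⟨π, hπ1, hπ2⟩ := ORB_perm
      (A := univ.filter (fun i : {i // i ∈ C} => (i : ι) ∈ P.1))
      (B := univ.filter (fun i : {i // i ∈ C} => (i : ι) ∈ P.2))
      (A' := univ.filter (fun i : {i // i ∈ C} => (i : ι) ∈ P'.1))
      (B' := univ.filter (fun i : {i // i ∈ C} => (i : ι) ∈ P'.2))
      (by
        rw [Finset.disjoint_left]
        intro i h1 h2
        exact (Finset.disjoint_left.1 a5) (mem_filter.1 h1).2 (mem_filter.1 h2).2)
      (by
        rw [Finset.disjoint_left]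
        intro i h1 h2
        exact (Finset.disjoint_left.1 b5) (mem_filter.1 h1).2 (mem_filter.1 h2).2)
      (by rw [hcard _ a1, hcard _ b1, a2, b2]) (by rw [hcard _ a3, hcard _ b3, a4, b4])
    simp only [mem_filter, mem_univ, true_and] at hπ1 hπ2
    refine Finset.card_le_card_of_injOn (fun x => (x.1.trans π, x.2)) ?_ ?_
    · rintro ⟨e, p⟩ hx
      rw [mem_coe, mem_filter] at hx
      rw [mem_coe, mem_filter]
      obtain ⟨h1, h2⟩ := hx
      have h3 : blk C u T e p.1 = P.1 := congrArg Prod.fst h2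
      have h4 : blk C u T e p.2 = P.2 := congrArg Prod.snd h2
      refine ⟨?_, ?_⟩
      · rw [hE, mem_product] at h1 ⊢
        exact ⟨mem_univ _, h1.2⟩
      · exact Prod.ext (ORB_trans a1 b1 hπ1 h3) (ORB_trans a3 b3 hπ2 h4)
    · rintro ⟨e, p⟩ _ ⟨e', p'⟩ _ h
      have h1 : e.trans π = e'.trans π := congrArg Prod.fst h
      have h2 : p = p' := congrArg Prod.snd h
      have h3 : e = e' := by
        ext x
        have := congrArg (fun f => π.symm (f x)) h1
        simpa using congrArg Subtype.val this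
      rw [h2, h3]
  -- there is a point
  have hex : E.Nonempty := by
    have hcC : Fintype.card (Fin (2 * u + 1) × Fin T) = Fintype.card {i // i ∈ C} := by
      rw [Fintype.card_prod, Fintype.card_fin, Fintype.card_fin, Fintype.card_coe, hC]
    obtain ⟨U, hU1, hU2⟩ := Finset.exists_subset_card_eq
      (s := (univ : Finset (Fin (2 * u + 1)))) (n := u) (by rw [card_univ, Fintype.card_fin]; omega)
    obtain ⟨V, hV1, hV2⟩ := Finset.exists_subset_card_eq
      (s := Uᶜ) (n := u) (by rw [card_compl, Fintype.card_fin, hU2]; omega)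
    refine ⟨(Fintype.equivOfCardEq hcC, (U, V)), ?_⟩
    rw [hE, mem_product]
    refine ⟨mem_univ _, ?_⟩
    unfold prs
    rw [mem_filter, mem_product, mem_powersetCard, mem_powersetCard]
    refine ⟨⟨⟨subset_univ _, hU2⟩, ⟨subset_univ _, hV2⟩⟩, ?_⟩
    exact (Finset.disjoint_of_subset_right hV1 disjoint_compl_right)
  obtain ⟨x0, hx0⟩ := hex
  refine ⟨(E.filter (fun x => g x = g x0)).card, ?_, ?_⟩
  · exact Finset.card_pos.2 ⟨x0, mem_filter.2 ⟨hx0, rfl⟩⟩
  · intro F
    have h1 : ∑ e : Fin (2 * u + 1) × Fin T ≃ {i // i ∈ C},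
        ∑ p ∈ prs (univ : Finset (Fin (2 * u + 1))) u, F (blk C u T e p.1) (blk C u T e p.2) =
        ∑ x ∈ E, F (g x).1 (g x).2 := by
      rw [hE, Finset.sum_product]
    rw [h1, ← Finset.sum_fiberwise_of_maps_to hmaps, Finset.mul_sum]
    refine Finset.sum_congr rfl (fun P hP => ?_)
    have h2 : (E.filter (fun x => g x = P)).card = (E.filter (fun x => g x = g x0)).card :=
      le_antisymm (hle P hP _ (hmaps x0 hx0)) (hle _ (hmaps x0 hx0) P hP)
    rw [← h2, Finset.card_eq_sum_ones, Finset.sum_mul]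
    refine Finset.sum_congr rfl (fun x hx => ?_)
    rw [(mem_filter.1 hx).2, one_mul]

end Pool.Agent.Work.MP_9999b5_mr
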