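import Pool.Agent.Work.MP_9999b5_mr.Interface

set_option autoImplicit false

namespace Pool.Agent.Work.MP_9999b5_mr

open Finset

theorem p_PAC : Stmt_PAI → Stmt_PAC := by
  intro hPAI ι _ C x k
  refine ⟨?_, ?_, ?_⟩
  · have h := hPAI ι C k (fun _ _ => 1)
    rw [Finset.card_eq_sum_ones, h]
    have h2 : ∀ U ∈ C.powersetCard (2 * k), ∑ B ∈ U.powersetCard k, 1 = (2 * k).choose k := by
      intro U hU
      rw [← Finset.card_eq_sum_ones, Finset.card_powersetCard, (Finset.mem_powersetCard.mp hU).2]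
    rw [Finset.sum_congr rfl h2, Finset.sum_const, Finset.card_powersetCard, smul_eq_mul]
    ring
  · have h := hPAI ι C k (fun B₁ B₂ => if ∑ i ∈ B₁, x i ≤ 0 ∧ ∑ i ∈ B₂, x i ≤ 0 then 1 else 0)
    unfold bad al
    rw [Finset.card_filter, h]
    refine Finset.sum_congr rfl (fun U _ => ?_)
    rw [Finset.card_filter]
  · have h := hPAI ι C k (fun B₁ B₂ => if ∑ i ∈ B₁, x i + ∑ i ∈ B₂, x i ≤ 0 then 1 else 0)
    unfold hvy
    rw [Finset.card_filter, h, Finset.card_filter, Finset.mul_sum]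
    refine Finset.sum_congr rfl (fun U hU => ?_)
    have h2 : ∀ B ∈ U.powersetCard k,
        (if ∑ i ∈ B, x i + ∑ i ∈ U \ B, x i ≤ 0 then 1 else 0) =
          (if ∑ i ∈ U, x i ≤ 0 then 1 else 0) := by
      intro B hB
      have h3 : ∑ i ∈ B, x i + ∑ i ∈ U \ B, x i = ∑ i ∈ U, x i := by
        rw [add_comm]
        exact Finset.sum_sdiff (Finset.mem_powersetCard.mp hB).1
      rw [h3]
    rw [Finset.sum_congr rfl h2, Finset.sum_const, Finset.card_powersetCard,
      (Finset.mem_powersetCard.mp hU).2, smul_eq_mul]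

end Pool.Agent.Work.MP_9999b5_mr
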