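import Pool.Agent.Work.MP_9999b5_mr.Interface

set_option autoImplicit false

namespace Pool.Agent.Work.MP_9999b5_mr

open Finset

theorem p_ANT : Stmt_ANT := by
  intro ι _ U x k a b ha hb hx
  unfold al
  have hab : a ≠ b := fun h => hb (h ▸ ha)
  refine Finset.card_le_card_of_injOn (fun B => if a ∈ B then insert b (B.erase a) else B) ?_ ?_
  · intro B hB
    rw [Finset.mem_coe, Finset.mem_filter, Finset.mem_powersetCard] at hB
    obtain ⟨⟨hBU, hBk⟩, h1, h2⟩ := hB
    have hbB : b ∉ B := fun h => hb (hBU h)
    rw [Finset.mem_coe, Finset.mem_filter, Finset.mem_powersetCard]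
    by_cases haB : a ∈ B
    · simp only [haB, if_true]
      have hbe : b ∉ B.erase a := fun h => hbB (Finset.mem_of_mem_erase h)
      have hsd : (insert b (U.erase a)) \ (insert b (B.erase a)) = U \ B := by
        ext i
        simp only [Finset.mem_sdiff, Finset.mem_insert, Finset.mem_erase]
        constructor
        · rintro ⟨h3, h4⟩
          push Not at h4
          rcases h3 with h3 | h3
          · exact absurd h3 h4.1
          · exact ⟨h3.2, fun h5 => h4.2 h3.1 h5⟩
        · rintro ⟨h3, h4⟩
          have hia : i ≠ a := fun h => h4 (h ▸ haB)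
          have hib : i ≠ b := fun h => hb (h ▸ h3)
          refine ⟨Or.inr ⟨hia, h3⟩, ?_⟩
          rintro (h5 | h5)
          · exact hib h5
          · exact h4 h5.2
      refine ⟨⟨?_, ?_⟩, ?_, ?_⟩
      · exact Finset.insert_subset_insert b (Finset.erase_subset_erase a hBU)
      · rw [Finset.card_insert_of_notMem hbe, Finset.card_erase_of_mem haB, hBk]
        have : 0 < k := by
          rw [← hBk]
          exact Finset.card_pos.mpr ⟨a, haB⟩
        omega
      · rw [Finset.sum_insert hbe]
        have := Finset.add_sum_erase B x haB
        linarith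
      · rw [hsd]
        exact h2
    · simp only [haB, if_false]
      have haD : a ∈ U \ B := Finset.mem_sdiff.mpr ⟨ha, haB⟩
      have hsd : (insert b (U.erase a)) \ B = insert b ((U \ B).erase a) := by
        ext i
        simp only [Finset.mem_sdiff, Finset.mem_insert, Finset.mem_erase]
        constructor
        · rintro ⟨h3, h4⟩
          rcases h3 with h3 | h3
          · exact Or.inl h3
          · exact Or.inr ⟨h3.1, h3.2, h4⟩
        · rintro (h3 | h3)
          · subst h3
            exact ⟨Or.inl rfl, hbB⟩
          · exact ⟨Or.inr ⟨h3.1, h3.2.1⟩, h3.2.2⟩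
      have hbe : b ∉ (U \ B).erase a := fun h =>
        hb (Finset.mem_sdiff.mp (Finset.mem_of_mem_erase h)).1
      refine ⟨⟨?_, hBk⟩, h1, ?_⟩
      · intro i hi
        refine Finset.mem_insert_of_mem (Finset.mem_erase.mpr ⟨?_, hBU hi⟩)
        intro h
        exact haB (h ▸ hi)
      · rw [hsd, Finset.sum_insert hbe]
        have := Finset.add_sum_erase (U \ B) x haD
        linarith
  · intro B hB B' hB' hEq
    rw [Finset.mem_coe, Finset.mem_filter, Finset.mem_powersetCard] at hB hB'
    have hbB : b ∉ B := fun h => hb (hB.1.1 h)
    have hbB' : b ∉ B' := fun h => hb (hB'.1.1 h)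
    simp only at hEq
    by_cases haB : a ∈ B <;> by_cases haB' : a ∈ B'
    · simp only [haB, haB', if_true] at hEq
      ext i
      by_cases hia : i = a
      · subst hia
        exact ⟨fun _ => haB', fun _ => haB⟩
      · by_cases hib : i = b
        · subst hib
          exact ⟨fun h => absurd h hbB, fun h => absurd h hbB'⟩
        · have := congrArg (fun S => i ∈ S) hEq
          simp only [Finset.mem_insert, Finset.mem_erase, hia, hib, false_or, ne_eq,
            not_false_eq_true, true_and, eq_iff_iff] at this
          exact this
    · simp only [haB, haB', if_true, if_false] at hEq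
      exact absurd (hEq ▸ Finset.mem_insert_self b (B.erase a)) hbB'
    · simp only [haB, haB', if_true, if_false] at hEq
      exact absurd (hEq.symm ▸ Finset.mem_insert_self b (B'.erase a)) hbB
    · simpa only [haB, haB', if_false] using hEq

end Pool.Agent.Work.MP_9999b5_mr
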