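import Pool.Agent.Work.MP_9999b5_mr.Interface

/-!
# MON: the sum over the `l`-sets which contain the maximum
-/

set_option autoImplicit false

namespace Pool.Agent.Work.MP_9999b5_mr

open Finset

theorem MON_swap {ι : Type} [DecidableEq ι] (D : Finset ι) (l : ℕ) (a : ι) (ha : a ∈ D)
    (f : Finset ι → ℕ) :
    ∑ U ∈ (D.powersetCard l).filter (fun U => a ∈ U), ∑ b ∈ D \ U, f (insert b (U.erase a)) =
      ∑ U ∈ (D.powersetCard l).filter (fun U => a ∉ U), ∑ _b ∈ U, f U := by
  rw [sum_sigma', sum_sigma']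
  refine sum_bij' (fun p _ => ⟨insert p.2 (p.1.erase a), p.2⟩)
    (fun p _ => ⟨insert a (p.1.erase p.2), p.2⟩) ?_ ?_ ?_ ?_ ?_
  · rintro ⟨U, b⟩ h
    simp only [mem_sigma, mem_filter, mem_powersetCard, mem_sdiff] at h ⊢
    obtain ⟨⟨⟨hU, hc⟩, haU⟩, hbD, hbU⟩ := h
    have hba : b ≠ a := by rintro rfl; exact hbU haU
    refine ⟨⟨⟨?_, ?_⟩, ?_⟩, mem_insert_self _ _⟩
    · exact insert_subset hbD ((erase_subset _ _).trans hU)
    · rw [card_insert_of_notMem (fun h => hbU (mem_of_mem_erase h)), card_erase_of_mem haU, hc]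
      have : 0 < U.card := card_pos.2 ⟨a, haU⟩
      omega
    · intro h
      rcases mem_insert.1 h with h | h
      · exact hba h.symm
      · exact (notMem_erase a U) h
  · rintro ⟨U, b⟩ h
    simp only [mem_sigma, mem_filter, mem_powersetCard, mem_sdiff] at h ⊢
    obtain ⟨⟨⟨hU, hc⟩, haU⟩, hbU⟩ := h
    have hba : b ≠ a := by rintro rfl; exact haU hbU
    refine ⟨⟨⟨?_, ?_⟩, mem_insert_self _ _⟩, hU hbU, ?_⟩
    · exact insert_subset ha ((erase_subset _ _).trans hU)
    · rw [card_insert_of_notMem (fun h => haU (mem_of_mem_erase h)), card_erase_of_mem hbU, hc]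
      have : 0 < U.card := card_pos.2 ⟨b, hbU⟩
      omega
    · intro h
      rcases mem_insert.1 h with h | h
      · exact hba h
      · exact (notMem_erase b U) h
  · rintro ⟨U, b⟩ h
    simp only [mem_sigma, mem_filter, mem_powersetCard, mem_sdiff] at h
    obtain ⟨⟨⟨hU, hc⟩, haU⟩, hbD, hbU⟩ := h
    have hb' : b ∉ U.erase a := fun h => hbU (mem_of_mem_erase h)
    have e : insert a ((insert b (U.erase a)).erase b) = U := by
      rw [erase_insert hb', insert_erase haU]
    simp only [e]
  · rintro ⟨U, b⟩ h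
    simp only [mem_sigma, mem_filter, mem_powersetCard] at h
    obtain ⟨⟨⟨hU, hc⟩, haU⟩, hbU⟩ := h
    have hb' : a ∉ U.erase b := fun h => haU (mem_of_mem_erase h)
    have e : insert b ((insert a (U.erase b)).erase a) = U := by
      rw [erase_insert hb', insert_erase hbU]
    simp only [e]
  · rintro ⟨U, b⟩ h
    rfl

theorem p_MON : Stmt_ANT → Stmt_MON := by
  intro hANT ι _ D x k l a ha hmax
  rcases lt_or_ge D.card l with hl | hl
  · rw [powersetCard_eq_empty.2 hl]
    simp
  · have hP : ∑ U ∈ (D.powersetCard l).filter (fun U => a ∈ U), ∑ _b ∈ D \ U, al x k U ≤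
        ∑ U ∈ (D.powersetCard l).filter (fun U => a ∈ U), ∑ b ∈ D \ U,
          al x k (insert b (U.erase a)) := by
      refine sum_le_sum fun U hU => sum_le_sum fun b hb => ?_
      rw [mem_filter] at hU
      rw [mem_sdiff] at hb
      exact hANT ι U x k a b hU.2 hb.2 (hmax b hb.1)
    rw [MON_swap D l a ha (al x k)] at hP
    have h1 : ∑ U ∈ (D.powersetCard l).filter (fun U => a ∈ U), ∑ _b ∈ D \ U, al x k U =
        (D.card - l) * ∑ U ∈ (D.powersetCard l).filter (fun U => a ∈ U), al x k U := by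
      rw [mul_sum]
      refine sum_congr rfl fun U hU => ?_
      rw [mem_filter, mem_powersetCard] at hU
      rw [sum_const, smul_eq_mul]
      have := card_sdiff_add_card_eq_card hU.1.1
      congr 1
      omega
    have h2 : ∑ U ∈ (D.powersetCard l).filter (fun U => a ∉ U), ∑ _b ∈ U, al x k U =
        l * ∑ U ∈ (D.powersetCard l).filter (fun U => a ∉ U), al x k U := by
      rw [mul_sum]
      refine sum_congr rfl fun U hU => ?_
      rw [mem_filter, mem_powersetCard] at hU
      rw [sum_const, smul_eq_mul, hU.1.2]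
    rw [h1, h2] at hP
    have h3 := sum_filter_add_sum_filter_not (D.powersetCard l) (fun U => a ∈ U) (fun U => al x k U)
    rw [← h3, mul_add]
    have h4 : D.card * ∑ U ∈ (D.powersetCard l).filter (fun U => a ∈ U), al x k U =
        (D.card - l) * ∑ U ∈ (D.powersetCard l).filter (fun U => a ∈ U), al x k U +
          l * ∑ U ∈ (D.powersetCard l).filter (fun U => a ∈ U), al x k U := by
      rw [← add_mul]
      congr 1
      omega
    rw [h4]
    omega

end Pool.Agent.Work.MP_9999b5_mr
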