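import Pool.Agent.Work.MP_9999b5_mr.Interface

/-! # Block FLO: the flow (helper40) -/

set_option autoImplicit false

namespace Pool.Agent.Work.MP_9999b5_mr

open Finset

lemma FLO_al_le {ι : Type} [DecidableEq ι] (x : ι → ℝ) (k : ℕ) (W : Finset ι)
    (h : W.card = 2 * k) : al x k W ≤ (2 * k).choose k := by
  unfold al
  refine (card_filter_le _ _).trans ?_
  rw [card_powersetCard, h]

lemma FLO_al_pos {ι : Type} [DecidableEq ι] (x : ι → ℝ) (k : ℕ) (W : Finset ι)
    (h : 0 < ∑ i ∈ W, x i) : al x k W = 0 := by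
  unfold al
  rw [card_eq_zero, filter_eq_empty_iff]
  rintro B hB ⟨h1, h2⟩
  have hs : B ⊆ W := (mem_powersetCard.1 hB).1
  have := sum_sdiff (f := x) hs
  linarith

/-- FLO. -/
theorem p_FLO : Stmt_WSU → Stmt_WAB → Stmt_FLO := by
  intro hWSU hWAB k T hk hQ hH ι _ V x hV hinj hx
  classical
  have hne : V.Nonempty := by rw [← card_pos]; omega
  obtain ⟨a, ha, hmax⟩ := exists_max_image V x hne
  set X := (2 * k).choose k with hX
  set M := (2 * k + T - 1).choose (2 * k - 1) with hM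
  have hXpos : 0 < X := Nat.choose_pos (by omega)
  have hMpos : 0 < M := Nat.choose_pos (by omega)
  set PU := (V.powersetCard (2 * k)).filter (fun U => a ∈ U) with hPU
  set PW := (V.powersetCard (2 * k)).filter (fun U => a ∉ U) with hPW
  have h1 : ∀ U ∈ PU, al x k U * (X * M) ≤
      ∑ W ∈ (V \ U).powersetCard (2 * k), al x k U * wt x k W := by
    intro U hU
    rw [hPU, mem_filter, mem_powersetCard] at hU
    obtain ⟨⟨hUV, hUc⟩, haU⟩ := hU
    rw [← mul_sum]
    by_cases h0 : 0 < ∑ i ∈ U, x i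
    · rw [FLO_al_pos x k U h0]
      simp
    · refine Nat.mul_le_mul_left _ ?_
      refine hWSU k T hk hQ ι (V \ U) x ?_ (hinj.mono ?_) ?_
      · rw [card_sdiff_of_subset hUV]; omega
      · intro i hi
        exact (mem_sdiff.1 hi).1
      · have := sum_sdiff (f := x) hUV
        linarith [not_lt.1 h0]
  have h2 : ∑ U ∈ PU, ∑ W ∈ (V \ U).powersetCard (2 * k), al x k U * wt x k W =
      ∑ W ∈ PW, ∑ U ∈ ((V \ W).powersetCard (2 * k)).filter (fun U => a ∈ U),
        al x k U * wt x k W := by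
    refine sum_comm' ?_
    intro U W
    rw [hPU, hPW, mem_filter, mem_filter, mem_filter, mem_powersetCard, mem_powersetCard,
      mem_powersetCard, mem_powersetCard]
    constructor
    · rintro ⟨⟨⟨a1, a2⟩, a3⟩, a4, a5⟩
      refine ⟨⟨⟨?_, a2⟩, a3⟩, ⟨a4.trans sdiff_subset, a5⟩, ?_⟩
      · intro i hi
        refine mem_sdiff.2 ⟨a1 hi, fun h => ?_⟩
        exact (mem_sdiff.1 (a4 h)).2 hi
      · intro h
        exact (mem_sdiff.1 (a4 h)).2 a3
    · rintro ⟨⟨⟨a1, a2⟩, a3⟩, ⟨a4, a5⟩, a6⟩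
      refine ⟨⟨⟨a1.trans sdiff_subset, a2⟩, a3⟩, ?_, a5⟩
      intro i hi
      refine mem_sdiff.2 ⟨a4 hi, fun h => ?_⟩
      exact (mem_sdiff.1 (a1 h)).2 hi
  have h3 : ∀ W ∈ PW, ∑ U ∈ ((V \ W).powersetCard (2 * k)).filter (fun U => a ∈ U),
        al x k U * wt x k W ≤ (X - al x k W) * (X * M) := by
    intro W hW
    rw [hPW, mem_filter, mem_powersetCard] at hW
    obtain ⟨⟨hWV, hWc⟩, haW⟩ := hW
    rw [← sum_mul, mul_comm]
    exact hWAB k T hk hH ι V W x a hV hinj hx ha hmax hWV hWc haW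
  have h4 : (X * M) * ∑ U ∈ PU, al x k U ≤ (X * M) * ∑ W ∈ PW, (X - al x k W) := by
    calc (X * M) * ∑ U ∈ PU, al x k U = ∑ U ∈ PU, al x k U * (X * M) := by
          rw [mul_comm, sum_mul]
      _ ≤ ∑ U ∈ PU, ∑ W ∈ (V \ U).powersetCard (2 * k), al x k U * wt x k W :=
          sum_le_sum h1
      _ = ∑ W ∈ PW, ∑ U ∈ ((V \ W).powersetCard (2 * k)).filter (fun U => a ∈ U),
          al x k U * wt x k W := h2
      _ ≤ ∑ W ∈ PW, (X - al x k W) * (X * M) := sum_le_sum h3
      _ = (X * M) * ∑ W ∈ PW, (X - al x k W) := by rw [mul_comm (X * M), sum_mul]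
  have h5 : ∑ U ∈ PU, al x k U ≤ ∑ W ∈ PW, (X - al x k W) :=
    Nat.le_of_mul_le_mul_left h4 (Nat.mul_pos hXpos hMpos)
  have h6 : ∑ U ∈ V.powersetCard (2 * k), al x k U = ∑ U ∈ PU, al x k U + ∑ W ∈ PW, al x k W := by
    rw [hPU, hPW, sum_filter_add_sum_filter_not]
  have h7 : ∑ W ∈ PW, (X - al x k W) + ∑ W ∈ PW, al x k W = X * PW.card := by
    rw [← sum_add_distrib, sum_const_nat (m := X)]
    · ring
    · intro W hW
      rw [hPW, mem_filter, mem_powersetCard] at hW
      have := FLO_al_le x k W hW.1.2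
      omega
  have h8 : PW.card = (4 * k + T - 1).choose (2 * k) := by
    have : PW = (V.erase a).powersetCard (2 * k) := by
      ext W
      rw [hPW, mem_filter, mem_powersetCard, mem_powersetCard]
      constructor
      · rintro ⟨⟨a1, a2⟩, a3⟩
        refine ⟨?_, a2⟩
        intro i hi
        refine mem_erase.2 ⟨?_, a1 hi⟩
        rintro rfl
        exact a3 hi
      · rintro ⟨a1, a2⟩
        refine ⟨⟨a1.trans (erase_subset _ _), a2⟩, ?_⟩
        intro h
        exact (mem_erase.1 (a1 h)).1 rfl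
    rw [this, card_powersetCard, card_erase_of_mem ha, hV]
  rw [h6, ← h8, ← h7]
  omega

end Pool.Agent.Work.MP_9999b5_mr
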