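import Pool.Agent.Work.MP_9999b5_mr.Interface

set_option autoImplicit false

namespace Pool.Agent.Work.MP_9999b5_mr

open Finset

/-- CNT: number of `k`-subsets meeting `H` in `j` elements. -/
theorem p_CNT : Stmt_CNT := by
  intro ι _ C H k j hHC hjk
  have h1 : ((H.powersetCard j) ×ˢ ((C \ H).powersetCard (k - j))).card =
      H.card.choose j * (C.card - H.card).choose (k - j) := by
    rw [card_product, card_powersetCard, card_powersetCard, card_sdiff_of_subset hHC]
  rw [← h1]
  refine card_bij' (fun P _ => (P ∩ H, P \ H)) (fun q _ => q.1 ∪ q.2) ?_ ?_ ?_ ?_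
  · intro P hP
    simp only [mem_filter, mem_powersetCard] at hP
    obtain ⟨⟨hPC, hPk⟩, hPj⟩ := hP
    simp only [mem_product, mem_powersetCard]
    refine ⟨⟨inter_subset_right, hPj⟩, sdiff_subset_sdiff hPC (le_refl _), ?_⟩
    have := card_inter_add_card_sdiff P H
    omega
  · intro q hq
    simp only [mem_product, mem_powersetCard] at hq
    obtain ⟨⟨h1, h2⟩, h3, h4⟩ := hq
    have hd : Disjoint q.1 q.2 := by
      rw [Finset.disjoint_left]
      intro a ha hb
      exact (mem_sdiff.1 (h3 hb)).2 (h1 ha)
    have e1 : (q.1 ∪ q.2) ∩ H = q.1 := by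
      ext a
      simp only [mem_inter, mem_union]
      constructor
      · rintro ⟨h | h, hH⟩
        · exact h
        · exact absurd hH (mem_sdiff.1 (h3 h)).2
      · intro h
        exact ⟨Or.inl h, h1 h⟩
    simp only [mem_filter, mem_powersetCard]
    refine ⟨⟨union_subset (h1.trans hHC) (h3.trans sdiff_subset), ?_⟩, ?_⟩
    · rw [card_union_of_disjoint hd, h2, h4]
      omega
    · rw [e1, h2]
  · intro P _
    show (P ∩ H) ∪ (P \ H) = P
    ext a
    simp only [mem_union, mem_inter, mem_sdiff]
    tauto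
  · intro q hq
    simp only [mem_product, mem_powersetCard] at hq
    obtain ⟨⟨h1, h2⟩, h3, h4⟩ := hq
    have e1 : (q.1 ∪ q.2) ∩ H = q.1 := by
      ext a
      simp only [mem_inter, mem_union]
      constructor
      · rintro ⟨h | h, hH⟩
        · exact h
        · exact absurd hH (mem_sdiff.1 (h3 h)).2
      · intro h
        exact ⟨Or.inl h, h1 h⟩
    have e2 : (q.1 ∪ q.2) \ H = q.2 := by
      ext a
      simp only [mem_sdiff, mem_union]
      constructor
      · rintro ⟨h | h, hH⟩
        · exact absurd (h1 h) hH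
        · exact h
      · intro h
        exact ⟨Or.inr h, (mem_sdiff.1 (h3 h)).2⟩
    show ((q.1 ∪ q.2) ∩ H, (q.1 ∪ q.2) \ H) = q
    rw [e1, e2]

end Pool.Agent.Work.MP_9999b5_mr
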