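import Pool.Agent.Work.MP_9999b5_mr.Interface

/-!
WAB (MP_9999b5_co, reduction): weights times demand.
-/

set_option autoImplicit false

namespace Pool.Agent.Work.MP_9999b5_mr

open Finset

lemma WAB_al_le {ι : Type} [DecidableEq ι] (x : ι → ℝ) (k : ℕ) {U : Finset ι}
    (hU : U.card = 2 * k) : al x k U ≤ (2 * k).choose k := by
  unfold al
  refine (card_filter_le _ _).trans ?_
  rw [card_powersetCard, hU]

lemma WAB_al_zero {ι : Type} [DecidableEq ι] (x : ι → ℝ) (k : ℕ) {U : Finset ι}
    (hU : 0 < ∑ i ∈ U, x i) : al x k U = 0 := by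
  unfold al
  rw [card_eq_zero, filter_eq_empty_iff]
  rintro B hB ⟨h1, h2⟩
  have h3 := sum_sdiff (f := x) (mem_powersetCard.1 hB).1
  linarith

lemma WAB_card {ι : Type} [DecidableEq ι] (D : Finset ι) (l : ℕ) (a : ι) (ha : a ∈ D) :
    ((D.powersetCard l).filter (fun U => a ∈ U)).card ≤ (D.card - 1).choose (l - 1) := by
  rw [← card_erase_of_mem ha, ← card_powersetCard]
  refine card_le_card_of_injOn (fun U => U.erase a) ?_ ?_
  · intro U hU
    obtain ⟨h1, h2⟩ := mem_filter.1 (mem_coe.1 hU)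
    obtain ⟨h3, h4⟩ := mem_powersetCard.1 h1
    apply mem_coe.2
    apply mem_powersetCard.2
    refine ⟨erase_subset_erase a h3, ?_⟩
    rw [card_erase_of_mem h2, h4]
  · intro U hU U' hU' h
    have h1 := (mem_filter.1 (mem_coe.1 hU)).2
    have h2 := (mem_filter.1 (mem_coe.1 hU')).2
    rw [← insert_erase h1, ← insert_erase h2]
    exact congrArg (insert a) h

theorem p_WAB (hPAC : Stmt_PAC) (hMON : Stmt_MON) : Stmt_WAB := by
  intro k T hk hH ι _ V W x a hV hinj hsum ha hmax hWV hW haW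
  set D := V \ W with hD
  have hDc : D.card = 2 * k + T := by
    rw [hD, card_sdiff_of_subset hWV, hV, hW]
    omega
  have haD : a ∈ D := mem_sdiff.2 ⟨ha, haW⟩
  have hal : ∀ U ∈ D.powersetCard (2 * k), al x k U ≤ (2 * k).choose k := fun U hU =>
    WAB_al_le x k (mem_powersetCard.1 hU).2
  by_cases hpos : 0 < ∑ i ∈ W, x i
  · rw [wt, if_pos hpos, WAB_al_zero x k hpos, Nat.sub_zero]
    apply Nat.mul_le_mul_left
    have h1 : ∑ U ∈ (D.powersetCard (2 * k)).filter (fun U => a ∈ U), al x k U ≤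
        ((D.powersetCard (2 * k)).filter (fun U => a ∈ U)).card * (2 * k).choose k := by
      refine (sum_le_card_nsmul _ _ ((2 * k).choose k) ?_).trans (le_of_eq (smul_eq_mul _ _))
      intro U hU
      exact hal U (mem_filter.1 hU).1
    have h2 := WAB_card D (2 * k) a haD
    rw [hDc] at h2
    calc ∑ U ∈ (D.powersetCard (2 * k)).filter (fun U => a ∈ U), al x k U
        ≤ ((D.powersetCard (2 * k)).filter (fun U => a ∈ U)).card * (2 * k).choose k := h1
      _ ≤ (2 * k + T - 1).choose (2 * k - 1) * (2 * k).choose k := Nat.mul_le_mul_right _ h2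
      _ = (2 * k).choose k * (2 * k + T - 1).choose (2 * k - 1) := mul_comm _ _
  · rw [wt, if_neg hpos]
    push Not at hpos
    have hDs : 0 ≤ ∑ i ∈ D, x i := by
      have := sum_sdiff (f := x) hWV
      rw [← hD] at this
      linarith
    have h1 := hH ι D x hDc (hinj.mono (fun i hi => (mem_sdiff.1 hi).1)) hDs
    obtain ⟨p1, p2, -⟩ := hPAC ι D x k
    rw [p1, p2, hDc] at h1
    have h2 := hMON ι D x k (2 * k) a haD (fun i hi => hmax i (mem_sdiff.1 hi).1)
    rw [hDc] at h2
    have h3 : 2 * k * (2 * k + T).choose (2 * k) =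
        (2 * k + T) * (2 * k + T - 1).choose (2 * k - 1) := by
      obtain ⟨m, hm⟩ : ∃ m, 2 * k + T = m + 1 := ⟨2 * k + T - 1, by omega⟩
      obtain ⟨l, hl⟩ : ∃ l, 2 * k = l + 1 := ⟨2 * k - 1, by omega⟩
      rw [hm, hl, Nat.add_sub_cancel, Nat.add_sub_cancel, Nat.add_one_mul_choose_eq, mul_comm]
    set S := ∑ U ∈ (D.powersetCard (2 * k)).filter (fun U => a ∈ U), al x k U with hS
    set A := ∑ U ∈ D.powersetCard (2 * k), al x k U with hA
    have h4 : 2 * S ≤ (2 * k).choose k * (2 * k + T - 1).choose (2 * k - 1) := by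
      apply Nat.le_of_mul_le_mul_left _ (show 0 < 2 * k + T by omega)
      calc (2 * k + T) * (2 * S) = 2 * ((2 * k + T) * S) := by ring
        _ ≤ 2 * (2 * k * A) := Nat.mul_le_mul_left _ h2
        _ = 2 * k * (2 * A) := by ring
        _ ≤ 2 * k * ((2 * k).choose k * (2 * k + T).choose (2 * k)) := Nat.mul_le_mul_left _ h1
        _ = (2 * k).choose k * (2 * k * (2 * k + T).choose (2 * k)) := by ring
        _ = (2 * k).choose k * ((2 * k + T) * (2 * k + T - 1).choose (2 * k - 1)) := by rw [h3]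
        _ = (2 * k + T) * ((2 * k).choose k * (2 * k + T - 1).choose (2 * k - 1)) := by ring
    calc 2 * ((2 * k).choose k - al x k W) * S = ((2 * k).choose k - al x k W) * (2 * S) := by ring
      _ ≤ ((2 * k).choose k - al x k W) *
          ((2 * k).choose k * (2 * k + T - 1).choose (2 * k - 1)) := Nat.mul_le_mul_left _ h4

end Pool.Agent.Work.MP_9999b5_mr
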