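import Pool.Agent.Work.MP_9999b5_mr.Interface

/-!
# Block CBI: central binomials (helper72)
-/

set_option autoImplicit false

namespace Pool.Agent.Work.MP_9999b5_mr

open Finset

theorem CBI_aux (r s : ℕ) : (2 * r + 1) * (Nat.centralBinom r * Nat.centralBinom (s + 1)) ≤
    (r + 1) * Nat.centralBinom (r + 1 + s) := by
  induction s with
  | zero =>
    have h1 := Nat.succ_mul_centralBinom_succ r
    have h2 := Nat.succ_mul_centralBinom_succ 0
    rw [Nat.centralBinom_zero] at h2
    have h3 : Nat.centralBinom (0 + 1) = 2 := by omega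
    rw [h3, add_zero, h1]
    exact le_of_eq (by ring)
  | succ s ih =>
    have h1 := Nat.succ_mul_centralBinom_succ (s + 1)
    have h2 := Nat.succ_mul_centralBinom_succ (r + 1 + s)
    have e1 : r + 1 + (s + 1) = r + 1 + s + 1 := by ring
    rw [e1]
    set A := Nat.centralBinom r
    set U := Nat.centralBinom (s + 1)
    set U' := Nat.centralBinom (s + 1 + 1)
    set K := Nat.centralBinom (r + 1 + s)
    set K' := Nat.centralBinom (r + 1 + s + 1)
    have h3 : (s + 1 + 1) * (r + 1 + s + 1) * ((2 * r + 1) * (A * U')) ≤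
        (s + 1 + 1) * (r + 1 + s + 1) * ((r + 1) * K') := by
      calc (s + 1 + 1) * (r + 1 + s + 1) * ((2 * r + 1) * (A * U'))
          = (2 * r + 1) * A * (r + 1 + s + 1) * ((s + 1 + 1) * U') := by ring
        _ = (2 * (2 * (s + 1) + 1) * (r + 1 + s + 1)) * ((2 * r + 1) * (A * U)) := by
            rw [h1]; ring
        _ ≤ (2 * (2 * (s + 1) + 1) * (r + 1 + s + 1)) * ((r + 1) * K) :=
            Nat.mul_le_mul_left _ ih
        _ = (2 * (r + 1) * K) * ((2 * (s + 1) + 1) * (r + 1 + s + 1)) := by ring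
        _ ≤ (2 * (r + 1) * K) * ((s + 1 + 1) * (2 * (r + 1 + s) + 1)) := by
            refine Nat.mul_le_mul_left _ ?_
            nlinarith [Nat.zero_le r, Nat.zero_le s]
        _ = (s + 1 + 1) * (r + 1) * (2 * (2 * (r + 1 + s) + 1) * K) := by ring
        _ = (s + 1 + 1) * (r + 1) * ((r + 1 + s + 1) * K') := by rw [h2]
        _ = (s + 1 + 1) * (r + 1 + s + 1) * ((r + 1) * K') := by ring
    exact Nat.le_of_mul_le_mul_left h3 (by positivity)

theorem p_CBI : Stmt_CBI := by
  intro r k hk
  obtain ⟨s, rfl⟩ := Nat.exists_eq_add_of_le hk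
  have h := CBI_aux r s
  have e : r + 1 + s - r = s + 1 := by omega
  rw [e]
  simpa only [Nat.centralBinom_eq_two_mul_choose] using h

end Pool.Agent.Work.MP_9999b5_mr
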