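import Pool.Agent.Work.MP_9999b5_mr.Interface

/-!
MP_9999b5_co, block HLE: not all elements are heavy.
-/

set_option autoImplicit false

namespace Pool.Agent.Work.MP_9999b5_mr

open Finset

theorem p_HLE : Stmt_HLE := by
  intro ι _ C x k hC hk hc hne
  by_contra hcon
  push Not at hcon
  have hsub : Hv C x ⊆ C := filter_subset _ _
  have hle : C.card ≤ (Hv C x).card := by omega
  have heq : Hv C x = C := eq_of_subset_of_card_le hsub hle
  have hall : ∀ z ∈ C, ∑ i ∈ C, x i ≤ x z := by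
    intro z hz
    have h1 : z ∈ Hv C x := by rw [heq]; exact hz
    exact (mem_filter.1 h1).2
  have hsum : ∑ _z ∈ C, (∑ i ∈ C, x i) ≤ ∑ z ∈ C, x z := sum_le_sum hall
  rw [sum_const, nsmul_eq_mul, hC] at hsum
  have hk' : (1 : ℝ) ≤ (k : ℝ) := by exact_mod_cast hk
  have hc0 : ∑ i ∈ C, x i = 0 := by
    push_cast at hsum
    have h2 : (2 * (k : ℝ)) * ∑ i ∈ C, x i ≤ 0 := by nlinarith
    have h3 : 0 ≤ (2 * (k : ℝ) - 1) * ∑ i ∈ C, x i :=
      mul_nonneg (by linarith) hc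
    have h4 : ∑ i ∈ C, x i ≤ 0 := by nlinarith
    exact le_antisymm h4 hc
  have hnn : ∀ z ∈ C, 0 ≤ x z := by
    intro z hz
    have := hall z hz
    linarith
  have hz := (sum_eq_zero_iff_of_nonneg hnn).1 hc0
  obtain ⟨i, hi, hxi⟩ := hne
  exact hxi (hz i hi)

end Pool.Agent.Work.MP_9999b5_mr
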