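import Pool.Agent.Work.MP_9999b5_mr.Interface

/-!
# Block HVC: pairs whose remaining element is heavy (helper72)
-/

set_option autoImplicit false

namespace Pool.Agent.Work.MP_9999b5_mr

open Finset

theorem p_HVC : Stmt_HVC := by
  intro ι _ C x k hC
  unfold hvy
  have h1 : ((Hv C x).sigma (fun z => (C.erase z).powersetCard k)).card =
      (Hv C x).card * (2 * k).choose k := by
    rw [Finset.card_sigma]
    refine Finset.sum_const_nat fun z hz => ?_
    rw [Finset.card_powersetCard, Finset.card_erase_of_mem (Finset.mem_filter.1 hz).1, hC,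
      Nat.add_sub_cancel]
  rw [← h1]
  symm
  refine Finset.card_bij (fun a _ => (a.2, (C.erase a.1) \ a.2)) ?_ ?_ ?_
  · rintro ⟨z, B⟩ h
    rw [Finset.mem_sigma] at h
    obtain ⟨hz, hB⟩ := h
    obtain ⟨hzC, hzc⟩ := Finset.mem_filter.1 hz
    obtain ⟨hBs, hBk⟩ := Finset.mem_powersetCard.1 hB
    have hcard : (C.erase z).card = 2 * k := by
      rw [Finset.card_erase_of_mem hzC, hC, Nat.add_sub_cancel]
    refine Finset.mem_filter.2 ⟨?_, ?_⟩
    · refine Finset.mem_filter.2 ⟨Finset.mem_product.2 ⟨?_, ?_⟩, ?_⟩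
      · exact Finset.mem_powersetCard.2 ⟨hBs.trans (Finset.erase_subset _ _), hBk⟩
      · refine Finset.mem_powersetCard.2 ⟨Finset.sdiff_subset.trans (Finset.erase_subset _ _), ?_⟩
        rw [Finset.card_sdiff_of_subset hBs, hcard, hBk]
        omega
      · exact Finset.disjoint_sdiff
    · show ∑ i ∈ B, x i + ∑ i ∈ (C.erase z) \ B, x i ≤ 0
      have h2 := Finset.sum_sdiff (f := x) hBs
      have h3 := Finset.sum_erase_add C x hzC
      linarith
  · rintro ⟨z, B⟩ h ⟨z', B'⟩ h' he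
    rw [Finset.mem_sigma] at h h'
    obtain ⟨hz, hB⟩ := h
    obtain ⟨hz', hB'⟩ := h'
    obtain ⟨hzC, hzc⟩ := Finset.mem_filter.1 hz
    obtain ⟨hBs, hBk⟩ := Finset.mem_powersetCard.1 hB
    obtain ⟨hBs', hBk'⟩ := Finset.mem_powersetCard.1 hB'
    simp only [Prod.mk.injEq] at he
    obtain ⟨he1, he2⟩ := he
    subst he1
    have h4 : C.erase z = C.erase z' := by
      rw [← Finset.sdiff_union_of_subset hBs, he2, Finset.sdiff_union_of_subset hBs']
    have h5 : z = z' := by
      by_contra hne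
      have h6 : z ∈ C.erase z' := Finset.mem_erase.2 ⟨hne, hzC⟩
      rw [← h4] at h6
      exact Finset.notMem_erase z C h6
    subst h5
    rfl
  · rintro ⟨P, Q⟩ h
    obtain ⟨h2, h3⟩ := Finset.mem_filter.1 h
    obtain ⟨h4, h5⟩ := Finset.mem_filter.1 h2
    obtain ⟨hP, hQ⟩ := Finset.mem_product.1 h4
    obtain ⟨hPs, hPk⟩ := Finset.mem_powersetCard.1 hP
    obtain ⟨hQs, hQk⟩ := Finset.mem_powersetCard.1 hQ
    have hd : Disjoint P Q := h5
    have hs : P ∪ Q ⊆ C := Finset.union_subset hPs hQs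
    have hcu : (P ∪ Q).card = 2 * k := by
      rw [Finset.card_union_of_disjoint hd, hPk, hQk]; ring
    have hc1 : (C \ (P ∪ Q)).card = 1 := by
      rw [Finset.card_sdiff_of_subset hs, hC, hcu]
      omega
    obtain ⟨z, hz⟩ := Finset.card_eq_one.1 hc1
    have hz1 : z ∈ C \ (P ∪ Q) := by rw [hz]; exact Finset.mem_singleton_self z
    obtain ⟨hzC, hzn⟩ := Finset.mem_sdiff.1 hz1
    have he : C.erase z = P ∪ Q := by
      rw [Finset.erase_eq, ← hz]
      exact Finset.sdiff_sdiff_eq_self hs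
    have hsum : ∑ i ∈ P, x i + ∑ i ∈ Q, x i ≤ 0 := h3
    have h6 := Finset.sum_erase_add C x hzC
    rw [he, Finset.sum_union hd] at h6
    refine ⟨⟨z, P⟩, ?_, ?_⟩
    · refine Finset.mem_sigma.2 ⟨Finset.mem_filter.2 ⟨hzC, ?_⟩, ?_⟩
      · linarith
      · refine Finset.mem_powersetCard.2 ⟨?_, hPk⟩
        rw [he]
        exact Finset.subset_union_left
    · show (P, (C.erase z) \ P) = (P, Q)
      rw [he, Finset.union_sdiff_cancel_left hd]

end Pool.Agent.Work.MP_9999b5_mr
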