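import Pool.Agent.Work.MP_9999b5_mr.Interface

set_option autoImplicit false

namespace Pool.Agent.Work.MP_9999b5_mr

open Finset

theorem LIF_blk_univ (hB : Stmt_BSU) {ι : Type} [DecidableEq ι] (C : Finset ι) (u T : ℕ)
    (hC : C.card = (2 * u + 1) * T) (e : Fin (2 * u + 1) × Fin T ≃ {i // i ∈ C}) :
    blk C u T e univ = C := by
  apply Finset.eq_of_subset_of_card_le
  · intro i hi
    unfold blk at hi
    rw [mem_image] at hi
    obtain ⟨p, _, rfl⟩ := hi
    exact (e p).2
  · rw [(hB ι C (fun _ => 0) u T e univ).2, hC]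
    simp

theorem LIF_sum (hB : Stmt_BSU) {ι : Type} [DecidableEq ι] (C : Finset ι) (x : ι → ℝ) (u T : ℕ)
    (hC : C.card = (2 * u + 1) * T) (e : Fin (2 * u + 1) × Fin T ≃ {i // i ∈ C}) :
    ∑ j, bs C x u T e j = ∑ i ∈ C, x i := by
  have h := (hB ι C x u T e univ).1
  rw [LIF_blk_univ hB C u T hC e] at h
  exact h

theorem LIF_pt (hP : Stmt_PAC) (hO : Stmt_ONE) (hL : Stmt_HLE) (u : ℕ) (hu : 1 ≤ u)
    (b : Fin (2 * u + 1) → ℝ) (hb : 0 ≤ ∑ j, b j) :
    (2 * bad univ b u + (2 * u).choose u * (if (Hv univ b).card = 2 * u then 1 else 0) ≤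
      ((Hv univ b).card + 1) * (2 * u).choose u +
        2 * u * (2 * u).choose u * (if ∀ j, b j = 0 then 1 else 0)) ∧
    (2 * bad univ b u + (2 * u).choose u * (if (Hv univ b).card = 2 * u then 1 else 0) ≤
      (2 * u + 1) * (2 * u).choose u +
        (2 * u + 1) * (2 * u).choose u * (if ∀ j, b j = 0 then 1 else 0)) := by
  have hcard : (univ : Finset (Fin (2 * u + 1))).card = 2 * u + 1 := by simp
  by_cases h0 : ∀ j, b j = 0
  · have hH : (Hv univ b).card = 2 * u + 1 := by
      have : Hv univ b = univ := by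
        unfold Hv
        apply Finset.filter_true_of_mem
        intro z _
        rw [h0 z]
        apply le_of_eq
        apply Finset.sum_eq_zero
        intro i _
        exact h0 i
      rw [this, hcard]
    have hbad : bad univ b u ≤ (2 * u).choose u * (2 * u + 1) := by
      have h1 : bad univ b u ≤ (prs (univ : Finset (Fin (2 * u + 1))) u).card := by
        unfold bad
        exact Finset.card_filter_le _ _
      rw [(hP _ univ b u).1, hcard, Nat.choose_succ_self_right] at h1
      exact h1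
    rw [if_pos h0, hH, if_neg (by omega)]
    constructor
    · nlinarith
    · nlinarith
  · have hne : ∃ i ∈ (univ : Finset (Fin (2 * u + 1))), b i ≠ 0 := by
      push Not at h0
      obtain ⟨j, hj⟩ := h0
      exact ⟨j, mem_univ j, hj⟩
    have hle := hL _ univ b u hcard hu hb hne
    have hone := hO _ univ b u hcard hle
    rw [if_neg h0]
    by_cases h2 : (Hv univ b).card = 2 * u
    · rw [if_pos h2]
      rw [h2] at hone ⊢
      have : 2 * u % 2 = 0 := by omega
      rw [this] at hone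
      constructor
      · nlinarith
      · nlinarith
    · rw [if_neg h2]
      have h3 : (Hv univ b).card + (Hv univ b).card % 2 ≤ (Hv univ b).card + 1 := by omega
      have h4 : (Hv univ b).card + (Hv univ b).card % 2 ≤ 2 * u + 1 := by omega
      have h5 := Nat.mul_le_mul_right ((2 * u).choose u) h3
      have h6 := Nat.mul_le_mul_right ((2 * u).choose u) h4
      constructor
      · linarith
      · linarith

theorem LIF_arith (N b h p M X y z u T : ℕ) (hN : 0 < N) (hu : 1 ≤ u)
    (hz : z * (u * (2 * u + 1)) ≤ y) (h3 : M * (X * (2 * u + 1)) = N * p)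
    (hq : 2 * (N * b) + X * y ≤ N * h + M * X + 2 * u * X * z)
    (hh : 2 * (N * b) + X * y ≤ M * ((2 * u + 1) * X) + (2 * u + 1) * X * z) :
    (2 * (u * T) + T) * (2 * b) ≤ (2 * (u * T) + T) * h + T * p ∧ 2 * b ≤ p := by
  have hu1 : 2 * u ≤ u * (2 * u + 1) := by nlinarith
  have hu2 : 2 * u + 1 ≤ u * (2 * u + 1) := by nlinarith
  have hz1 : z * (2 * u) ≤ y := le_trans (Nat.mul_le_mul_left z hu1) hz
  have hz2 : z * (2 * u + 1) ≤ y := le_trans (Nat.mul_le_mul_left z hu2) hz
  have hz3 : X * (z * (2 * u)) ≤ X * y := Nat.mul_le_mul_left X hz1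
  have hz4 : X * (z * (2 * u + 1)) ≤ X * y := Nat.mul_le_mul_left X hz2
  have e1 : 2 * u * X * z = X * (z * (2 * u)) := by ring
  have e2 : (2 * u + 1) * X * z = X * (z * (2 * u + 1)) := by ring
  have e3 : M * ((2 * u + 1) * X) = M * (X * (2 * u + 1)) := by ring
  rw [e1] at hq
  rw [e2, e3, h3] at hh
  have hq' : 2 * (N * b) ≤ N * h + M * X := by omega
  have hh' : 2 * (N * b) ≤ N * p := by omega
  constructor
  · apply Nat.le_of_mul_le_mul_left _ hN
    have h6 : N * ((2 * (u * T) + T) * (2 * b)) = (2 * (u * T) + T) * (2 * (N * b)) := by ring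
    have h7 : N * ((2 * (u * T) + T) * h + T * p) = (2 * (u * T) + T) * (N * h + M * X) := by
      have e4 : N * ((2 * (u * T) + T) * h + T * p) =
        (2 * (u * T) + T) * (N * h) + T * (N * p) := by ring
      rw [e4, ← h3]
      ring
    rw [h6, h7]
    exact Nat.mul_le_mul_left _ hq'
  · apply Nat.le_of_mul_le_mul_left _ hN
    have e5 : N * (2 * b) = 2 * (N * b) := by ring
    rw [e5]
    exact hh'

theorem LIF_main (hP : Stmt_PAC) (hV : Stmt_HVC) (hO : Stmt_ONE) (hL : Stmt_HLE) (hB : Stmt_BSU)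
    (hR : Stmt_ORB) (hZ : Stmt_ZER) (u T : ℕ) (hu : 1 ≤ u) (hT : 1 ≤ T) (ι : Type)
    [DecidableEq ι] (C : Finset ι) (x : ι → ℝ) (hC : C.card = 2 * (u * T) + T)
    (hinj : Set.InjOn x C) (hc : 0 ≤ ∑ i ∈ C, x i) :
    (2 * (u * T) + T) * (2 * bad C x (u * T)) ≤
      (2 * (u * T) + T) * hvy C x (u * T) + T * (prs C (u * T)).card ∧
    2 * bad C x (u * T) ≤ (prs C (u * T)).card := by
  have hC' : C.card = (2 * u + 1) * T := by rw [hC]; ring
  obtain ⟨N, hN, hF⟩ := hR ι C u T hC'
  have hcard : (univ : Finset (Fin (2 * u + 1))).card = 2 * u + 1 := by simp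
  have h1 : ∑ e : Fin (2 * u + 1) × Fin T ≃ {i // i ∈ C}, bad univ (bs C x u T e) u =
      N * bad C x (u * T) := by
    have h := hF (fun P Q => if (∑ i ∈ P, x i ≤ 0 ∧ ∑ i ∈ Q, x i ≤ 0) then 1 else 0)
    unfold bad
    rw [Finset.card_filter, ← h]
    apply Finset.sum_congr rfl
    intro e _
    rw [Finset.card_filter]
    apply Finset.sum_congr rfl
    intro p _
    rw [(hB ι C x u T e p.1).1, (hB ι C x u T e p.2).1]
  have h2 : ∑ e : Fin (2 * u + 1) × Fin T ≃ {i // i ∈ C}, hvy univ (bs C x u T e) u =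
      N * hvy C x (u * T) := by
    have h := hF (fun P Q => if (∑ i ∈ P, x i + ∑ i ∈ Q, x i ≤ 0) then 1 else 0)
    unfold hvy
    rw [Finset.card_filter, ← h]
    apply Finset.sum_congr rfl
    intro e _
    rw [Finset.card_filter]
    apply Finset.sum_congr rfl
    intro p _
    rw [(hB ι C x u T e p.1).1, (hB ι C x u T e p.2).1]
  have h3 : ∑ _e : Fin (2 * u + 1) × Fin T ≃ {i // i ∈ C},
      (2 * u).choose u * (2 * u + 1) = N * (prs C (u * T)).card := by
    have h := hF (fun _ _ => 1)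
    rw [Finset.card_eq_sum_ones, ← h]
    apply Finset.sum_congr rfl
    intro e _
    rw [← Finset.card_eq_sum_ones, (hP _ univ (bs C x u T e) u).1, hcard,
      Nat.choose_succ_self_right]
  have h4 : ∀ e : Fin (2 * u + 1) × Fin T ≃ {i // i ∈ C},
      hvy univ (bs C x u T e) u = (Hv univ (bs C x u T e)).card * (2 * u).choose u := by
    intro e
    exact hV _ univ (bs C x u T e) u hcard
  have hpt : ∀ e : Fin (2 * u + 1) × Fin T ≃ {i // i ∈ C}, 0 ≤ ∑ j, bs C x u T e j := by
    intro e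
    rw [LIF_sum hB C x u T hC' e]
    exact hc
  have hz : (univ.filter (fun e : Fin (2 * u + 1) × Fin T ≃ {i // i ∈ C} =>
      ∀ j, bs C x u T e j = 0)).card * (u * (2 * u + 1)) ≤
    (univ.filter (fun e : Fin (2 * u + 1) × Fin T ≃ {i // i ∈ C} =>
      (Hv univ (bs C x u T e)).card = 2 * u)).card := by
    by_cases hc0 : ∑ i ∈ C, x i = 0
    · exact hZ ι C x u T hC' hT hinj hc0
    · have : (univ.filter (fun e : Fin (2 * u + 1) × Fin T ≃ {i // i ∈ C} =>
          ∀ j, bs C x u T e j = 0)) = ∅ := by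
        apply Finset.filter_false_of_mem
        intro e _ hall
        apply hc0
        rw [← LIF_sum hB C x u T hC' e]
        apply Finset.sum_eq_zero
        intro j _
        exact hall j
      rw [this]
      simp
  have hq := Finset.sum_le_sum (s := (univ : Finset (Fin (2 * u + 1) × Fin T ≃ {i // i ∈ C})))
    (fun e _ => (LIF_pt hP hO hL u hu (bs C x u T e) (hpt e)).1)
  have hh := Finset.sum_le_sum (s := (univ : Finset (Fin (2 * u + 1) × Fin T ≃ {i // i ∈ C})))
    (fun e _ => (LIF_pt hP hO hL u hu (bs C x u T e) (hpt e)).2)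
  rw [Finset.sum_add_distrib, Finset.sum_add_distrib, ← Finset.mul_sum, ← Finset.mul_sum,
    ← Finset.mul_sum, ← Finset.card_filter, ← Finset.card_filter, h1] at hq
  rw [Finset.sum_add_distrib, Finset.sum_add_distrib, Finset.sum_const, ← Finset.mul_sum,
    ← Finset.mul_sum, ← Finset.mul_sum, ← Finset.card_filter, ← Finset.card_filter, h1] at hh
  have h5 : ∑ e : Fin (2 * u + 1) × Fin T ≃ {i // i ∈ C},
      ((Hv univ (bs C x u T e)).card + 1) * (2 * u).choose u =
      N * hvy C x (u * T) + ∑ _e : Fin (2 * u + 1) × Fin T ≃ {i // i ∈ C},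
        (2 * u).choose u := by
    rw [← h2, ← Finset.sum_add_distrib]
    apply Finset.sum_congr rfl
    intro e _
    rw [h4 e]
    ring
  rw [h5] at hq
  rw [Finset.sum_const, smul_eq_mul] at hq h3
  rw [smul_eq_mul] at hh
  generalize (univ.filter (fun e : Fin (2 * u + 1) × Fin T ≃ {i // i ∈ C} =>
      ∀ j, bs C x u T e j = 0)).card = z at hz hq hh
  generalize (univ.filter (fun e : Fin (2 * u + 1) × Fin T ≃ {i // i ∈ C} =>
      (Hv univ (bs C x u T e)).card = 2 * u)).card = y at hz hq hh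
  generalize (univ : Finset (Fin (2 * u + 1) × Fin T ≃ {i // i ∈ C})).card = M at hq hh h3
  generalize (2 * u).choose u = X at hq hh h3
  generalize bad C x (u * T) = b at hq hh ⊢
  generalize hvy C x (u * T) = h at hq ⊢
  generalize (prs C (u * T)).card = p at h3 ⊢
  exact LIF_arith N b h p M X y z u T hN hu hz h3 hq hh

theorem p_LIF (hP : Stmt_PAC) (hV : Stmt_HVC) (hO : Stmt_ONE) (hL : Stmt_HLE) (hB : Stmt_BSU)
    (hR : Stmt_ORB) (hZ : Stmt_ZER) : Stmt_LIF := by
  intro u T hu hT
  refine ⟨?_, ?_⟩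
  · intro ι _ C x hC hinj hc
    exact (LIF_main hP hV hO hL hB hR hZ u T hu hT ι C x hC hinj hc).1
  · intro ι _ C x hC hinj hc
    exact (LIF_main hP hV hO hL hB hR hZ u T hu hT ι C x hC hinj hc).2

end Pool.Agent.Work.MP_9999b5_mr
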