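import Pool.Agent.Work.MP_9999b5_mr.Interface

/-!
MP_9999b5_co, block NUM: the sum of the binomial numbers of the heavy edges.
-/

set_option autoImplicit false

namespace Pool.Agent.Work.MP_9999b5_mr

open Finset

/-- the numbers `q j`, with `h = g + 1` -/
def NUMq (k g j : ℕ) : ℕ := if j ≤ k then g.choose j * (2 * k - g).choose (k - j) else 0

theorem NUM_top (k g j : ℕ) (hj : g < j) : NUMq k g j = 0 := by
  unfold NUMq
  split_ifs with h
  · rw [Nat.choose_eq_zero_of_lt hj, zero_mul]
  · rfl

theorem NUM_mul (k g j : ℕ) :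
    (g + 1 - j) * nb k (g + 1) j = (g + 1) * NUMq k g j := by
  unfold nb NUMq
  by_cases h : j ≤ k
  · rw [if_pos h, if_pos h]
    have e : 2 * k + 1 - (g + 1) = 2 * k - g := by omega
    rw [e]
    have h1 := Nat.choose_mul_succ_eq g j
    calc (g + 1 - j) * ((g + 1).choose j * (2 * k - g).choose (k - j))
        = ((g + 1).choose j * (g + 1 - j)) * (2 * k - g).choose (k - j) := by ring
      _ = (g.choose j * (g + 1)) * (2 * k - g).choose (k - j) := by rw [h1]
      _ = (g + 1) * (g.choose j * (2 * k - g).choose (k - j)) := by ring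
  · rw [if_neg h, if_neg h, mul_zero, mul_zero]

theorem NUM_symm (k g j : ℕ) (hg : g ≤ 2 * k) (hj : j ≤ g) : NUMq k g (g - j) = NUMq k g j := by
  unfold NUMq
  rw [Nat.choose_symm hj]
  by_cases h1 : j ≤ k
  · rw [if_pos h1]
    by_cases h2 : g - j ≤ k
    · rw [if_pos h2]
      have e : (2 * k - g).choose (k - (g - j)) = (2 * k - g).choose (k - j) := by
        rw [← Nat.choose_symm (n := 2 * k - g) (k := k - j) (by omega)]
        congr 1
        omega
      rw [e]
    · rw [if_neg h2, Nat.choose_eq_zero_of_lt (n := 2 * k - g) (k := k - j) (by omega), mul_zero]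
  · rw [if_neg h1]
    rw [if_pos (by omega), Nat.choose_eq_zero_of_lt (n := 2 * k - g) (k := k - (g - j)) (by omega), mul_zero]

theorem NUM_sum (k g : ℕ) (hg : g ≤ 2 * k) : ∑ j ∈ range (g + 1), NUMq k g j = (2 * k).choose k := by
  have h1 : ∑ j ∈ range (k + 1), NUMq k g j = (2 * k).choose k := by
    have h := Nat.add_choose_eq g (2 * k - g) k
    rw [show g + (2 * k - g) = 2 * k by omega,
      Finset.Nat.sum_antidiagonal_eq_sum_range_succ (fun i j => g.choose i * (2 * k - g).choose j) k] at h
    rw [h]
    apply sum_congr rfl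
    intro j hj
    rw [mem_range] at hj
    unfold NUMq
    rw [if_pos (by omega)]
  rw [← h1]
  have h2 : ∑ j ∈ range (g + 1), NUMq k g j = ∑ j ∈ range (g + k + 2), NUMq k g j := by
    apply sum_subset
    · intro j hj
      rw [mem_range] at hj ⊢
      omega
    · intro j _ hj
      rw [mem_range] at hj
      exact NUM_top k g j (by omega)
  have h3 : ∑ j ∈ range (k + 1), NUMq k g j = ∑ j ∈ range (g + k + 2), NUMq k g j := by
    apply sum_subset
    · intro j hj
      rw [mem_range] at hj ⊢
      omega
    · intro j _ hj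
      rw [mem_range] at hj
      unfold NUMq
      rw [if_neg (by omega)]
  rw [h2, h3]

/-- reflection of a half of the range -/
theorem NUM_refl (f : ℕ → ℕ) (n m : ℕ) (hn : n ≤ m + 1) :
    ∑ j ∈ range n, f (m - j) = ∑ i ∈ range n, f (m + 1 - n + i) := by
  rw [← Finset.sum_range_reflect]
  apply sum_congr rfl
  intro j hj
  rw [mem_range] at hj
  congr 1
  omega

/-- the sum over the whole range, `h = g + 1` -/
theorem NUM_S (k g : ℕ) :
    ∑ j ∈ range (g + 1 + 1), min j (g + 1 - j) * nb k (g + 1) (max j (g + 1 - j)) =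
      (g + 1) * ∑ j ∈ range (g + 1 + 1), NUMq k g (max j (g + 1 - j)) := by
  rw [mul_sum]
  apply sum_congr rfl
  intro j hj
  rw [mem_range] at hj
  rw [← NUM_mul k g (max j (g + 1 - j))]
  congr 1
  omega

theorem p_NUM : Stmt_CBI → Stmt_NUM := by
  intro CBI k h hh
  rcases Nat.eq_zero_or_pos h with h0 | hpos
  · subst h0
    simp
  obtain ⟨r, hr | hr⟩ := Nat.even_or_odd' h
  · -- `h = 2 r`
    obtain ⟨g, rfl⟩ : ∃ g, h = g + 1 := ⟨h - 1, by omega⟩
    have hm : (g + 1) % 2 = 0 := by omega
    have hg2 : g ≤ 2 * k := by omega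
    have hr1 : 1 ≤ r := by omega
    rw [hm, Nat.sub_zero, NUM_S]
    set q : ℕ → ℕ := NUMq k g with hq
    set X := (2 * k).choose k with hX
    -- the sum over `max`
    have e1 : ∑ j ∈ range (g + 1 + 1), q (max j (g + 1 - j)) = q r + 2 * ∑ i ∈ range r, q (r + 1 + i) := by
      rw [show g + 1 + 1 = r + 1 + r by omega, Finset.sum_range_add]
      have a1 : ∑ j ∈ range (r + 1), q (max j (g + 1 - j)) = q r + ∑ i ∈ range r, q (r + 1 + i) := by
        rw [Finset.sum_range_succ]
        have b1 : ∑ j ∈ range r, q (max j (g + 1 - j)) = ∑ j ∈ range r, q (g + 1 - j) := by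
          apply sum_congr rfl
          intro j hj
          rw [mem_range] at hj
          congr 1
          omega
        rw [b1, NUM_refl q r (g + 1) (by omega)]
        have b2 : max r (g + 1 - r) = r := by omega
        have b3 : g + 1 + 1 - r = r + 1 := by omega
        rw [b2, b3, add_comm]
      have a2 : ∑ i ∈ range r, q (max (r + 1 + i) (g + 1 - (r + 1 + i))) = ∑ i ∈ range r, q (r + 1 + i) := by
        apply sum_congr rfl
        intro j hj
        rw [mem_range] at hj
        congr 1
        omega
      rw [a1, a2]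
      ring
    have e2 : X = 2 * ∑ i ∈ range r, q (r + i) := by
      rw [hX, ← NUM_sum k g hg2, show g + 1 = r + r by omega, Finset.sum_range_add]
      have a1 : ∑ j ∈ range r, q j = ∑ i ∈ range r, q (r + i) := by
        have b1 : ∑ j ∈ range r, q j = ∑ j ∈ range r, q (g - j) := by
          apply sum_congr rfl
          intro j hj
          rw [mem_range] at hj
          exact (NUM_symm k g j hg2 (by omega)).symm
        rw [b1, NUM_refl q r g (by omega)]
        have b3 : g + 1 - r = r := by omega
        rw [b3]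
      rw [← hq, a1]
      ring
    have e3 : ∑ i ∈ range r, q (r + i) = q r + ∑ i ∈ range r, q (r + 1 + i) := by
      have c1 : ∑ i ∈ range (r + 1), q (r + i) = ∑ i ∈ range r, q (r + i) + q (r + r) :=
        Finset.sum_range_succ _ _
      have c2 : ∑ i ∈ range (r + 1), q (r + i) = ∑ i ∈ range r, q (r + (i + 1)) + q (r + 0) :=
        Finset.sum_range_succ' _ _
      have c3 : q (r + r) = 0 := NUM_top k g (r + r) (by omega)
      have c4 : ∑ i ∈ range r, q (r + (i + 1)) = ∑ i ∈ range r, q (r + 1 + i) := by
        apply sum_congr rfl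
        intro j _
        congr 1
        omega
      rw [c3, add_zero] at c1
      rw [← c1, c2, c4, add_zero, add_comm]
    rw [e1]
    have e4 : X ≤ 2 * (q r + 2 * ∑ i ∈ range r, q (r + 1 + i)) := by
      rw [e2, e3]
      omega
    calc (g + 1) * X ≤ (g + 1) * (2 * (q r + 2 * ∑ i ∈ range r, q (r + 1 + i))) := Nat.mul_le_mul_left _ e4
      _ = 2 * ((g + 1) * (q r + 2 * ∑ i ∈ range r, q (r + 1 + i))) := by ring
  · -- `h = 2 r + 1`
    obtain ⟨g, rfl⟩ : ∃ g, h = g + 1 := ⟨h - 1, by omega⟩
    have hm : (g + 1) % 2 = 1 := by omega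
    have hg2 : g ≤ 2 * k := by omega
    have hgr : g = 2 * r := by omega
    have hrk : r + 1 ≤ k := by omega
    rw [hm, Nat.add_sub_cancel, NUM_S]
    have hcbi := CBI r k hrk
    have hqr : NUMq k g r = (2 * r).choose r * (2 * (k - r)).choose (k - r) := by
      unfold NUMq
      rw [if_pos (by omega), hgr, show 2 * k - 2 * r = 2 * (k - r) by omega]
    rw [← hqr] at hcbi
    set q : ℕ → ℕ := NUMq k g with hq
    set X := (2 * k).choose k with hX
    have e1 : ∑ j ∈ range (g + 1 + 1), q (max j (g + 1 - j)) = 2 * ∑ i ∈ range (r + 1), q (r + 1 + i) := by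
      rw [show g + 1 + 1 = (r + 1) + (r + 1) by omega, Finset.sum_range_add]
      have a1 : ∑ j ∈ range (r + 1), q (max j (g + 1 - j)) = ∑ i ∈ range (r + 1), q (r + 1 + i) := by
        have b1 : ∑ j ∈ range (r + 1), q (max j (g + 1 - j)) = ∑ j ∈ range (r + 1), q (g + 1 - j) := by
          apply sum_congr rfl
          intro j hj
          rw [mem_range] at hj
          congr 1
          omega
        rw [b1, NUM_refl q (r + 1) (g + 1) (by omega)]
        have b3 : g + 1 + 1 - (r + 1) = r + 1 := by omega
        rw [b3]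
      have a2 : ∑ i ∈ range (r + 1), q (max (r + 1 + i) (g + 1 - (r + 1 + i))) =
          ∑ i ∈ range (r + 1), q (r + 1 + i) := by
        apply sum_congr rfl
        intro j hj
        rw [mem_range] at hj
        congr 1
        omega
      rw [a1, a2]
      ring
    have e3 : ∑ i ∈ range (r + 1), q (r + 1 + i) = ∑ i ∈ range r, q (r + 1 + i) := by
      rw [Finset.sum_range_succ]
      have c3 : q (r + 1 + r) = 0 := NUM_top k g (r + 1 + r) (by omega)
      rw [c3, add_zero]
    have e2 : X = q r + 2 * ∑ i ∈ range r, q (r + 1 + i) := by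
      rw [hX, ← NUM_sum k g hg2, show g + 1 = r + 1 + r by omega, Finset.sum_range_add,
        Finset.sum_range_succ]
      have a1 : ∑ j ∈ range r, q j = ∑ i ∈ range r, q (r + 1 + i) := by
        have b1 : ∑ j ∈ range r, q j = ∑ j ∈ range r, q (g - j) := by
          apply sum_congr rfl
          intro j hj
          rw [mem_range] at hj
          exact (NUM_symm k g j hg2 (by omega)).symm
        rw [b1, NUM_refl q r g (by omega)]
        have b3 : g + 1 - r = r + 1 := by omega
        rw [b3]
      rw [← hq, a1]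
      ring
    rw [e1, e3]
    generalize ∑ i ∈ range r, q (r + 1 + i) = s at e2
    generalize q r = y at e2 hcbi
    rw [e2] at hcbi ⊢
    rw [hgr]
    nlinarith [hcbi]

end Pool.Agent.Work.MP_9999b5_mr
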