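import Pool.Agent.Work.MP_9999b5_mr.Interface

/-!
ONE (MP_9999b5_co, reduction; typed by helper76): the case `T = 1`.
-/

set_option autoImplicit false

namespace Pool.Agent.Work.MP_9999b5_mr

open Finset

lemma ONE_NN (hCNT : Stmt_CNT) {ι : Type} [DecidableEq ι] (C : Finset ι) (x : ι → ℝ) (k : ℕ)
    (hC : C.card = 2 * k + 1) (j : ℕ) : NN C x k j = nb k (Hv C x).card j := by
  unfold NN nb
  by_cases hj : j ≤ k
  · rw [if_pos hj, hCNT ι C (Hv C x) k j (filter_subset _ _) hj, hC]
  · rw [if_neg hj, card_eq_zero, filter_eq_empty_iff]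
    intro P hP h
    have h1 : (P ∩ Hv C x).card ≤ P.card := card_le_card inter_subset_left
    rw [(mem_powersetCard.1 hP).2, h] at h1
    exact hj h1

lemma ONE_arith {h k j N G G' : ℕ} (hh : h ≤ 2 * k) (hj : 2 * j ≤ h)
    (H : N * (k + 1 + (h - j) - h) ≤ G' * (k + 1 + (h - j) - h) + G * (k + 1 - (h - j))) :
    j * N ≤ j * G' + (h - j) * G := by
  have e1 : k + 1 + (h - j) - h = k + 1 - j := by omega
  rw [e1] at H
  have hpos : 0 < k + 1 - j := by omega
  have h2 : j * (k + 1 - (h - j)) ≤ (h - j) * (k + 1 - j) :=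
    Nat.mul_le_mul (by omega) (by omega)
  refine Nat.le_of_mul_le_mul_right ?_ hpos
  calc j * N * (k + 1 - j) = j * (N * (k + 1 - j)) := by ring
    _ ≤ j * (G' * (k + 1 - j) + G * (k + 1 - (h - j))) := Nat.mul_le_mul_left _ H
    _ = j * G' * (k + 1 - j) + G * (j * (k + 1 - (h - j))) := by ring
    _ ≤ j * G' * (k + 1 - j) + G * ((h - j) * (k + 1 - j)) :=
        Nat.add_le_add_left (Nat.mul_le_mul_left _ h2) _
    _ = (j * G' + (h - j) * G) * (k + 1 - j) := by ring

theorem p_ONE (hCNT : Stmt_CNT) (hLED : Stmt_LED) (hHED : Stmt_HED) (hNUM : Stmt_NUM) :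
    Stmt_ONE := by
  intro ι _ C x k hC hh
  set h := (Hv C x).card with hhdef
  have hnum := hNUM k h hh
  have hhed := hHED ι C x k hC
  rw [← hhdef] at hhed
  -- one direction
  have half : ∀ j, 2 * j ≤ h →
      j * NN C x k (h - j) ≤ j * GG C x k (h - j) + (h - j) * GG C x k j := by
    intro j hj
    have H := hLED ι C x k (h - j) hC (by omega)
    rw [← hhdef] at H
    have e : h - (h - j) = j := by omega
    rw [e] at H
    exact ONE_arith hh hj H
  have all : ∀ j ∈ range (h + 1), min j (h - j) * nb k h (max j (h - j)) ≤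
      j * GG C x k (h - j) + (h - j) * GG C x k j := by
    intro j hj
    have hj' : j ≤ h := by
      have := mem_range.1 hj
      omega
    rw [hhdef, ← ONE_NN hCNT C x k hC, ← hhdef]
    by_cases h2 : 2 * j ≤ h
    · rw [min_eq_left (by omega), max_eq_right (by omega)]
      exact half j h2
    · rw [min_eq_right (by omega), max_eq_left (by omega)]
      have := half (h - j) (by omega)
      have e : h - (h - j) = j := by omega
      rw [e] at this
      linarith
  have hsum := sum_le_sum all
  rw [sum_add_distrib] at hsum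
  have hrefl : ∑ j ∈ range (h + 1), j * GG C x k (h - j) =
      ∑ j ∈ range (h + 1), (h - j) * GG C x k j := by
    rw [← sum_range_reflect (fun j => (h - j) * GG C x k j) (h + 1)]
    refine sum_congr rfl fun j hj => ?_
    have hj' : j ≤ h := by
      have := mem_range.1 hj
      omega
    have e1 : h + 1 - 1 - j = h - j := by omega
    have e2 : h - (h + 1 - 1 - j) = j := by omega
    rw [e2, e1]
  have hcomm : ∑ j ∈ range (h + 1), GG C x k j * (h - j) =
      ∑ j ∈ range (h + 1), (h - j) * GG C x k j :=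
    sum_congr rfl fun j _ => mul_comm _ _
  rw [hrefl] at hsum
  rw [hcomm] at hhed
  set S := ∑ j ∈ range (h + 1), (h - j) * GG C x k j with hS
  set X := (2 * k).choose k with hX
  have hmod : (h - h % 2) + (h + h % 2) = 2 * h := by
    have := Nat.mod_le h 2
    omega
  have h4 : (h - h % 2) * X ≤ 4 * S := by
    calc (h - h % 2) * X ≤ _ := hnum
      _ ≤ 2 * (S + S) := Nat.mul_le_mul_left _ hsum
      _ = 4 * S := by ring
  have h5 : (h - h % 2) * X + (h + h % 2) * X = 2 * (h * X) := by
    rw [← add_mul, hmod, mul_assoc]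
  omega

end Pool.Agent.Work.MP_9999b5_mr
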