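import Pool.Agent.Work.MP_9999b5_mr.Interface

/-! # Block WSU: the sum of the weights (helper3) -/

set_option autoImplicit false

namespace Pool.Agent.Work.MP_9999b5_mr

open Finset

lemma WSU_al_pos {ι : Type} [DecidableEq ι] (x : ι → ℝ) (k : ℕ) (W : Finset ι)
    (h : 0 < ∑ i ∈ W, x i) : al x k W = 0 := by
  unfold al
  rw [card_eq_zero, filter_eq_empty_iff]
  rintro B hB ⟨h1, h2⟩
  have hs : B ⊆ W := (mem_powersetCard.1 hB).1
  have := sum_sdiff (f := x) hs
  linarith

lemma WSU_al_le {ι : Type} [DecidableEq ι] (x : ι → ℝ) (k : ℕ) (W : Finset ι)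
    (h : W.card = 2 * k) : al x k W ≤ (2 * k).choose k := by
  unfold al
  refine (card_filter_le _ _).trans ?_
  rw [card_powersetCard, h]

lemma WSU_wt {ι : Type} [DecidableEq ι] (x : ι → ℝ) (k : ℕ) (W : Finset ι)
    (h : W.card = 2 * k) : wt x k W + 2 * al x k W =
      (2 * k).choose k + (if ∑ i ∈ W, x i ≤ 0 then (2 * k).choose k else 0) := by
  unfold wt
  by_cases h0 : 0 < ∑ i ∈ W, x i
  · rw [if_pos h0, WSU_al_pos x k W h0, if_neg (not_le.2 h0)]
  · rw [if_neg h0, if_pos (not_lt.1 h0)]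
    have := WSU_al_le x k W h
    omega

/-- WSU. -/
theorem p_WSU : Stmt_PAC → Stmt_WSU := by
  intro hPAC k T hk hQ ι _ C x hC hinj hx
  obtain ⟨h1, h2, h3⟩ := hPAC ι C x k
  have hq := hQ ι C x hC hinj hx
  have hsum : ∑ W ∈ C.powersetCard (2 * k), wt x k W + 2 * bad C x k =
      (prs C k).card + hvy C x k := by
    rw [h1, h2, h3, mul_sum, ← sum_add_distrib]
    rw [sum_congr rfl (fun W hW => WSU_wt x k W (mem_powersetCard.1 hW).2), sum_add_distrib,
      sum_const, card_powersetCard, smul_eq_mul, ← sum_filter, sum_const, smul_eq_mul]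
    ring
  have hch : 2 * k * (2 * k + T).choose (2 * k) =
      (2 * k + T) * (2 * k + T - 1).choose (2 * k - 1) := by
    have h4 := Nat.add_one_mul_choose_eq (2 * k + T - 1) (2 * k - 1)
    have h5 : 2 * k + T - 1 + 1 = 2 * k + T := by omega
    have h6 : 2 * k - 1 + 1 = 2 * k := by omega
    rw [h5, h6] at h4
    rw [h4, mul_comm]
  have hpr : 2 * k * (prs C k).card =
      (2 * k + T) * ((2 * k).choose k * (2 * k + T - 1).choose (2 * k - 1)) := by
    rw [h1, hC]
    calc 2 * k * ((2 * k).choose k * (2 * k + T).choose (2 * k))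
        = (2 * k).choose k * (2 * k * (2 * k + T).choose (2 * k)) := by ring
      _ = _ := by rw [hch]; ring
  have hpos : 0 < 2 * k + T := by omega
  refine Nat.le_of_mul_le_mul_left ?_ hpos
  rw [← hpr]
  set S := ∑ W ∈ C.powersetCard (2 * k), wt x k W
  have h7 : (2 * k + T) * S + (2 * k + T) * (2 * bad C x k) =
      (2 * k + T) * (prs C k).card + (2 * k + T) * hvy C x k := by
    rw [← mul_add, hsum, mul_add]
  have h8 : (2 * k + T) * (prs C k).card = 2 * k * (prs C k).card + T * (prs C k).card := by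
    ring
  omega

end Pool.Agent.Work.MP_9999b5_mr
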