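import Pool.Agent.Work.MP_9999b5_mr.Interface

set_option autoImplicit false

namespace Pool.Agent.Work.MP_9999b5_mr

open Finset

/-- sum of the block sums -/
theorem ZER_sum {ι : Type} [DecidableEq ι] (C : Finset ι) (x : ι → ℝ) (u T : ℕ)
    (e : Fin (2 * u + 1) × Fin T ≃ {i // i ∈ C}) :
    ∑ j, bs C x u T e j = ∑ i ∈ C, x i := by
  unfold bs
  rw [← Fintype.sum_prod_type (fun p : Fin (2 * u + 1) × Fin T => x (e p))]
  rw [Equiv.sum_comp e (fun i : {i // i ∈ C} => x i)]
  exact Finset.sum_coe_sort C x

/-- block sums after a swap of `(a, 0)` and `(b, 0)` -/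
theorem ZER_swap {ι : Type} [DecidableEq ι] (C : Finset ι) (x : ι → ℝ) (u T : ℕ) (t0 : Fin T)
    (e : Fin (2 * u + 1) × Fin T ≃ {i // i ∈ C}) (a b : Fin (2 * u + 1)) (hab : a ≠ b)
    (j : Fin (2 * u + 1)) :
    bs C x u T ((Equiv.swap (a, t0) (b, t0)).trans e) j =
      bs C x u T e j + (if j = a then x (e (b, t0)) - x (e (a, t0)) else 0)
        + (if j = b then x (e (a, t0)) - x (e (b, t0)) else 0) := by
  unfold bs
  have key : ∀ t : Fin T, x (((Equiv.swap (a, t0) (b, t0)).trans e) (j, t)) =
      x (e (j, t)) + ((if t = t0 then (if j = a then x (e (b, t0)) - x (e (a, t0)) else 0) else 0)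
        + (if t = t0 then (if j = b then x (e (a, t0)) - x (e (b, t0)) else 0) else 0)) := by
    intro t
    simp only [Equiv.trans_apply]
    by_cases ht : t = t0
    · subst ht
      by_cases h1 : j = a
      · subst h1
        have hjb : ¬ (j = b) := hab
        simp [hjb]
      · by_cases h2 : j = b
        · subst h2
          simp [h1]
        · have e1 : (j, t) ≠ (a, t) := fun h => h1 (Prod.mk.inj h).1
          have e2 : (j, t) ≠ (b, t) := fun h => h2 (Prod.mk.inj h).1
          rw [Equiv.swap_apply_of_ne_of_ne e1 e2]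
          simp [h1, h2]
    · have e1 : (j, t) ≠ (a, t0) := fun h => ht (Prod.mk.inj h).2
      have e2 : (j, t) ≠ (b, t0) := fun h => ht (Prod.mk.inj h).2
      rw [Equiv.swap_apply_of_ne_of_ne e1 e2]
      simp [ht]
  rw [Finset.sum_congr rfl (fun t _ => key t), Finset.sum_add_distrib, Finset.sum_add_distrib]
  rw [Finset.sum_ite_eq' univ t0 (fun _ => if j = a then x (e (b, t0)) - x (e (a, t0)) else 0)]
  rw [Finset.sum_ite_eq' univ t0 (fun _ => if j = b then x (e (a, t0)) - x (e (b, t0)) else 0)]
  simp only [Finset.mem_univ, if_true]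
  ring

/-- number of pairs `a < b` -/
theorem ZER_card (u : ℕ) :
    ((univ : Finset (Fin (2 * u + 1) × Fin (2 * u + 1))).filter (fun p => p.1 < p.2)).card =
      u * (2 * u + 1) := by
  have h1 : ((univ : Finset (Fin (2 * u + 1) × Fin (2 * u + 1))).filter (fun p => p.1 < p.2)).card
      = ∑ b : Fin (2 * u + 1), (b : ℕ) := by
    rw [Finset.card_filter, Fintype.sum_prod_type_right]
    refine Finset.sum_congr rfl (fun b _ => ?_)
    rw [← Finset.card_filter]
    have : (univ.filter (fun a : Fin (2 * u + 1) => a < b)) = Finset.Iio b := by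
      ext a; simp
    simp only
    rw [this, Fin.card_Iio]
  rw [h1, Fin.sum_univ_eq_sum_range (fun i => i) (2 * u + 1)]
  have h2 := Finset.sum_range_id_mul_two (2 * u + 1)
  have h3 : 2 * u + 1 - 1 = 2 * u := by omega
  rw [h3] at h2
  have h4 : (2 * u + 1) * (2 * u) = (u * (2 * u + 1)) * 2 := by ring
  rw [h4] at h2
  exact Nat.eq_of_mul_eq_mul_right (by norm_num) h2

theorem p_ZER : Stmt_ZER := by
  intro ι _ C x u T hC hT hx hsum
  obtain ⟨t0⟩ : Nonempty (Fin T) := ⟨⟨0, hT⟩⟩
  have hxinj : ∀ (e : Fin (2 * u + 1) × Fin T ≃ {i // i ∈ C}) (p q : Fin (2 * u + 1) × Fin T),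
      p ≠ q → x (e p) ≠ x (e q) := by
    intro e p q hpq h
    apply hpq
    apply e.injective
    apply Subtype.ext
    exact hx (e p).2 (e q).2 h
  rw [← ZER_card u, ← Finset.card_product]
  apply Finset.card_le_card_of_injOn
    (fun q => (Equiv.swap (q.2.1, t0) (q.2.2, t0)).trans q.1)
  · rintro ⟨e, a, b⟩ hq
    simp only [Finset.coe_product, Set.mem_prod, Finset.mem_coe, Finset.mem_filter,
      Finset.mem_univ, true_and] at hq
    obtain ⟨h0, hab⟩ := hq
    have hab' : a ≠ b := ne_of_lt hab
    simp only [Finset.coe_filter, Finset.mem_univ, true_and, Set.mem_ofPred_eq]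
    set d : ℝ := x (e (b, t0)) - x (e (a, t0)) with hd
    have hdne : d ≠ 0 := by
      rw [hd]
      intro h
      exact hxinj e (b, t0) (a, t0) (fun h' => hab' (Prod.mk.inj h').1.symm) (sub_eq_zero.mp h)
    have hbs : ∀ j, bs C x u T ((Equiv.swap (a, t0) (b, t0)).trans e) j =
        (if j = a then d else 0) + (if j = b then -d else 0) := by
      intro j
      rw [ZER_swap C x u T t0 e a b hab' j, h0 j, zero_add]
      congr 1
      by_cases h2 : j = b
      · simp only [h2, if_true]; rw [hd]; ring
      · simp only [h2, if_false]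
    -- the only light block
    have hlight : ∃ w : Fin (2 * u + 1), Hv univ (bs C x u T ((Equiv.swap (a, t0) (b, t0)).trans e))
        = univ.erase w := by
      rcases lt_or_gt_of_ne hdne with hneg | hpos
      · refine ⟨a, ?_⟩
        ext j
        simp only [Hv, Finset.mem_filter, Finset.mem_univ, true_and, Finset.mem_erase, and_true]
        rw [ZER_sum, hsum, hbs j]
        by_cases h1 : j = a
        · subst h1
          simp only [if_true, hab', if_false, add_zero, ne_eq, not_true, iff_false, not_le]
          exact hneg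
        · by_cases h2 : j = b
          · subst h2
            simp only [h1, if_false, if_true, zero_add, ne_eq, not_false_eq_true, iff_true]
            linarith
          · simp [h1, h2]
      · refine ⟨b, ?_⟩
        ext j
        simp only [Hv, Finset.mem_filter, Finset.mem_univ, true_and, Finset.mem_erase, and_true]
        rw [ZER_sum, hsum, hbs j]
        by_cases h2 : j = b
        · subst h2
          have h1 : ¬ (j = a) := fun h => hab' h.symm
          simp only [if_true, h1, if_false, zero_add, ne_eq, not_true, iff_false, not_le]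
          linarith
        · by_cases h1 : j = a
          · subst h1
            simp only [h2, if_false, if_true, add_zero, ne_eq, not_false_eq_true, iff_true]
            exact hpos.le
          · simp [h1, h2]
    obtain ⟨w, hw⟩ := hlight
    rw [hw, Finset.card_erase_of_mem (Finset.mem_univ w), Finset.card_univ, Fintype.card_fin]
    omega
  · rintro ⟨e, a, b⟩ hq ⟨e', a', b'⟩ hq' heq
    simp only [Finset.coe_product, Set.mem_prod, Finset.mem_coe, Finset.mem_filter,
      Finset.mem_univ, true_and] at hq hq'
    obtain ⟨h0, hab⟩ := hq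
    obtain ⟨h0', hab'⟩ := hq'
    have hn : a ≠ b := ne_of_lt hab
    have hn' : a' ≠ b' := ne_of_lt hab'
    simp only at heq
    -- nonzero places
    have hne : ∀ (e : Fin (2 * u + 1) × Fin T ≃ {i // i ∈ C}) (a b : Fin (2 * u + 1)), a ≠ b →
        (∀ j, bs C x u T e j = 0) →
        ∀ j, bs C x u T ((Equiv.swap (a, t0) (b, t0)).trans e) j ≠ 0 ↔ (j = a ∨ j = b) := by
      intro e a b hab h0 j
      have hdne : x (e (b, t0)) - x (e (a, t0)) ≠ 0 := by
        intro h
        exact hxinj e (b, t0) (a, t0) (fun h' => hab (Prod.mk.inj h').1.symm) (sub_eq_zero.mp h)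
      rw [ZER_swap C x u T t0 e a b hab j, h0 j, zero_add]
      by_cases h1 : j = a
      · subst h1
        simp only [if_true, hab, if_false, add_zero, true_or, iff_true]
        exact hdne
      · by_cases h2 : j = b
        · subst h2
          simp only [h1, if_false, if_true, zero_add, or_true, iff_true]
          intro h
          apply hdne
          linarith
        · simp [h1, h2]
    have hA := hne e a b hn h0
    have hB := hne e' a' b' hn' h0'
    rw [← heq] at hB
    have hset : ∀ j, (j = a ∨ j = b) ↔ (j = a' ∨ j = b') := fun j => by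
      rw [← hA j, ← hB j]
    have haa : a = a' ∧ b = b' := by
      rcases (hset a).mp (Or.inl rfl) with h1 | h1
      · rcases (hset b).mp (Or.inr rfl) with h2 | h2
        · exact absurd (h1.trans h2.symm) hn
        · exact ⟨h1, h2⟩
      · rcases (hset b).mp (Or.inr rfl) with h2 | h2
        · rw [h1, h2] at hab
          exact absurd hab (not_lt.mpr hab'.le)
        · exact absurd (h1.trans h2.symm) hn
    obtain ⟨rfl, rfl⟩ := haa
    have hee : e = e' := by
      ext p
      have := congrArg (fun f : Fin (2 * u + 1) × Fin T ≃ {i // i ∈ C} =>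
        ((f (Equiv.swap (a, t0) (b, t0) p) : {i // i ∈ C}) : ι)) heq
      simpa using this
    rw [hee]

end Pool.Agent.Work.MP_9999b5_mr
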