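import Pool.Agent.Work.MP_9999b5_mr.B_PAI
import Pool.Agent.Work.MP_9999b5_mr.B_PAC
import Pool.Agent.Work.MP_9999b5_mr.B_CNT
import Pool.Agent.Work.MP_9999b5_mr.B_LED
import Pool.Agent.Work.MP_9999b5_mr.B_HED
import Pool.Agent.Work.MP_9999b5_mr.B_HVC
import Pool.Agent.Work.MP_9999b5_mr.B_CBI
import Pool.Agent.Work.MP_9999b5_mr.B_NUM
import Pool.Agent.Work.MP_9999b5_mr.B_ONE
import Pool.Agent.Work.MP_9999b5_mr.B_HLE
import Pool.Agent.Work.MP_9999b5_mr.B_BSU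
import Pool.Agent.Work.MP_9999b5_mr.B_ORB
import Pool.Agent.Work.MP_9999b5_mr.B_ZER
import Pool.Agent.Work.MP_9999b5_mr.B_LIF
import Pool.Agent.Work.MP_9999b5_mr.B_ANT
import Pool.Agent.Work.MP_9999b5_mr.B_MON
import Pool.Agent.Work.MP_9999b5_mr.B_WSU
import Pool.Agent.Work.MP_9999b5_mr.B_WAB
import Pool.Agent.Work.MP_9999b5_mr.B_FLO
import Pool.Agent.Work.MP_9999b5_mr.B_RED
import Pool.Agent.Work.MP_9999b5_mr.B_FIN

/-!
MP_9999b5_co: assembly of the blocks. `h_RED` is the reduction for all `k`, `T`; `h_LIF` its hypotheses for `T ∣ k`.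
-/

set_option autoImplicit false

namespace Pool.Agent.Work.MP_9999b5_mr

theorem h_PAC : Stmt_PAC := p_PAC p_PAI

theorem h_NUM : Stmt_NUM := p_NUM p_CBI

theorem h_ONE : Stmt_ONE := p_ONE p_CNT p_LED p_HED h_NUM

theorem h_ORB : Stmt_ORB := p_ORB p_BSU

theorem h_LIF : Stmt_LIF := p_LIF h_PAC p_HVC h_ONE p_HLE p_BSU h_ORB p_ZER

theorem h_MON : Stmt_MON := p_MON p_ANT

theorem h_WSU : Stmt_WSU := p_WSU h_PAC

theorem h_WAB : Stmt_WAB := p_WAB h_PAC h_MON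

theorem h_FLO : Stmt_FLO := p_FLO h_WSU h_WAB

theorem h_RED : Stmt_RED := p_RED h_PAC h_FLO

theorem h_FIN : Stmt_FIN := p_FIN h_LIF h_RED

end Pool.Agent.Work.MP_9999b5_mr
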