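import Pool.Agent.Work.MP_9999b5_mr.Interface

set_option autoImplicit false

namespace Pool.Agent.Work.MP_9999b5_mr

open Finset

lemma BSU_inj {ι : Type} {C : Finset ι} {u T : ℕ}
    (e : Fin (2 * u + 1) × Fin T ≃ {i // i ∈ C}) :
    Function.Injective (fun p : Fin (2 * u + 1) × Fin T => (e p : ι)) := by
  intro p q h
  exact e.injective (Subtype.ext h)

theorem p_BSU : Stmt_BSU := by
  intro ι _ C x u T e J
  constructor
  · unfold bs blk
    rw [Finset.sum_image (fun a _ b _ h => BSU_inj e h), Finset.sum_product]
  · unfold blk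
    rw [Finset.card_image_of_injective _ (BSU_inj e), Finset.card_product, Finset.card_univ,
      Fintype.card_fin]

end Pool.Agent.Work.MP_9999b5_mr
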