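import Pool.Agent.Work.MP_9999b5_ms.Defs
import Pool.Agent.Work.MP_9999b5_ms_helper84.Top

/-!
MP_9999b5_co (Manickam-Miklos-Singhi), `n = 4k + T`: REDUCTION to two inequalities on sets of `2k + T` elements
(helper98, helper18) and their proof for `T ∣ k` (helper54, helper93). Strict version (sets with sum `> 0` are counted).

`C` a finite set, `c = ∑ i ∈ C, x i`. `prs C k` = ordered pairs of disjoint `k`-subsets of `C`. A pair is BAD if both sums
are `≤ 0`. `QQ k T`, `HH k T` are the two inequalities. `W k n φ` (of `MP_9999b5_ms/Defs.lean`) = a fraction `φ` of all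
`k`-subsets has positive sum, for `n` distinct reals with nonnegative sum.

RULES: one file `Pool/Agent/Work/MP_9999b5_mr/B_<ID>.lean` per block, `import Pool.Agent.Work.MP_9999b5_mr.Interface`,
`namespace Pool.Agent.Work.MP_9999b5_mr`, `open Finset`, theorem `p_<ID> : Stmt_X → Stmt_Y → Stmt_<ID>` with exactly the
statements of the column `uses` as hypotheses, in this order; auxiliary lemmas with the name of the block in front. No
straight double quotes.
-/

set_option autoImplicit false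

namespace Pool.Agent.Work.MP_9999b5_mr

open Finset

/-- ordered pairs of disjoint `k`-subsets of `C` -/
def prs {ι : Type} [DecidableEq ι] (C : Finset ι) (k : ℕ) : Finset (Finset ι × Finset ι) :=
  ((C.powersetCard k) ×ˢ (C.powersetCard k)).filter (fun p => Disjoint p.1 p.2)

/-- number of bad pairs -/
noncomputable def bad {ι : Type} [DecidableEq ι] (C : Finset ι) (x : ι → ℝ) (k : ℕ) : ℕ :=
  ((prs C k).filter (fun p => ∑ i ∈ p.1, x i ≤ 0 ∧ ∑ i ∈ p.2, x i ≤ 0)).card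

/-- number of pairs whose union has a sum `≤ 0` -/
noncomputable def hvy {ι : Type} [DecidableEq ι] (C : Finset ι) (x : ι → ℝ) (k : ℕ) : ℕ :=
  ((prs C k).filter (fun p => ∑ i ∈ p.1, x i + ∑ i ∈ p.2, x i ≤ 0)).card

/-- number of halvings of `U` (`|U| = 2k`) with both sums `≤ 0` -/
noncomputable def al {ι : Type} [DecidableEq ι] (x : ι → ℝ) (k : ℕ) (U : Finset ι) : ℕ :=
  ((U.powersetCard k).filter (fun B => ∑ i ∈ B, x i ≤ 0 ∧ ∑ i ∈ U \ B, x i ≤ 0)).card

/-- (H): at most half of the pairs are bad -/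
def HH (k T : ℕ) : Prop := ∀ (ι : Type) [DecidableEq ι] (C : Finset ι) (x : ι → ℝ),
  C.card = 2 * k + T → Set.InjOn x C → 0 ≤ ∑ i ∈ C, x i → 2 * bad C x k ≤ (prs C k).card

/-- (Q): `2 P(bad) ≤ P(B₁ ∪ B₂ has sum ≤ 0) + T/(2k+T)` -/
def QQ (k T : ℕ) : Prop := ∀ (ι : Type) [DecidableEq ι] (C : Finset ι) (x : ι → ℝ),
  C.card = 2 * k + T → Set.InjOn x C → 0 ≤ ∑ i ∈ C, x i →
  (2 * k + T) * (2 * bad C x k) ≤ (2 * k + T) * hvy C x k + T * (prs C k).card

/-! ### A. Counting -/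

/-- PAI (60 lines): pairs as 2k-subsets with a half. Bijection `p ↦ (p.1 ∪ p.2, p.1)`. -/
def Stmt_PAI : Prop := ∀ (ι : Type) [DecidableEq ι] (C : Finset ι) (k : ℕ)
    (F : Finset ι → Finset ι → ℕ),
  ∑ p ∈ prs C k, F p.1 p.2 = ∑ U ∈ C.powersetCard (2 * k), ∑ B ∈ U.powersetCard k, F B (U \ B)

/-- PAC (30 lines; uses PAI): `F = 1`, and the indicators. -/
def Stmt_PAC : Prop := ∀ (ι : Type) [DecidableEq ι] (C : Finset ι) (x : ι → ℝ) (k : ℕ),
  (prs C k).card = (2 * k).choose k * C.card.choose (2 * k) ∧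
  bad C x k = ∑ U ∈ C.powersetCard (2 * k), al x k U ∧
  hvy C x k = (2 * k).choose k *
    ((C.powersetCard (2 * k)).filter (fun U => ∑ i ∈ U, x i ≤ 0)).card

/-- CNT (40 lines): number of `k`-subsets meeting `H` in `j` elements. -/
def Stmt_CNT : Prop := ∀ (ι : Type) [DecidableEq ι] (C H : Finset ι) (k j : ℕ), H ⊆ C → j ≤ k →
  ((C.powersetCard k).filter (fun P => (P ∩ H).card = j)).card =
    H.card.choose j * (C.card - H.card).choose (k - j)

/-! ### B. `T = 1`: `|C| = 2k + 1`, `h` elements are heavy: `c ≤ x z` -/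

/-- the heavy elements -/
noncomputable def Hv {ι : Type} [DecidableEq ι] (C : Finset ι) (x : ι → ℝ) : Finset ι :=
  C.filter (fun z => ∑ i ∈ C, x i ≤ x z)

/-- number of `k`-subsets with `j` heavy elements -/
noncomputable def NN {ι : Type} [DecidableEq ι] (C : Finset ι) (x : ι → ℝ) (k j : ℕ) : ℕ :=
  ((C.powersetCard k).filter (fun P => (P ∩ Hv C x).card = j)).card

/-- number of `k`-subsets with `j` heavy elements and positive sum -/
noncomputable def GG {ι : Type} [DecidableEq ι] (C : Finset ι) (x : ι → ℝ) (k j : ℕ) : ℕ :=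
  ((C.powersetCard k).filter (fun P => (P ∩ Hv C x).card = j ∧ 0 < ∑ i ∈ P, x i)).card

/-- LED (100 lines), light edges. Count the pairs `(P, y)`, `P` a `k`-subset with `j` heavy elements, `y ∈ C \ P` light
(`x y < c`): every `P` has `(2k+1-h) - (k-j) = k+1+j-h` of them (if there is such a `P` then `h ≤ k+1+j`). With
`P' = C \ P \ {y}` (`h - j` heavy elements): `x(P) + x(P') = c - x y > 0`, so `P` or `P'` is positive. `(P, y) ↦ (P', y)` is
injective, and the number of the pairs `(P', y)` with `P'` positive is `GG (h-j) * (k+1+(h-j)-h)`. -/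
def Stmt_LED : Prop := ∀ (ι : Type) [DecidableEq ι] (C : Finset ι) (x : ι → ℝ) (k j : ℕ),
  C.card = 2 * k + 1 → j ≤ (Hv C x).card →
  NN C x k j * (k + 1 + j - (Hv C x).card) ≤
    GG C x k j * (k + 1 + j - (Hv C x).card) + GG C x k ((Hv C x).card - j) * (k + 1 - j)

/-- HED (100 lines), heavy edges. Pairs `(P, z)`, `P` a `k`-subset, `z ∈ Hv \ P`: their number is `h * C(2k,k)`; with
`P' = C \ P \ {z}`: `x(P) + x(P') = c - x z ≤ 0`, so `P`, `P'` are not both positive. `(P, P')` is bad iff none is positive (and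
for a bad pair of `prs C k` the remaining element is heavy). The number of `(P, z)` with `P` positive is
`∑ j, GG j * (h - j)`, and the same for `P'`. -/
def Stmt_HED : Prop := ∀ (ι : Type) [DecidableEq ι] (C : Finset ι) (x : ι → ℝ) (k : ℕ),
  C.card = 2 * k + 1 →
  bad C x k + 2 * ∑ j ∈ range ((Hv C x).card + 1), GG C x k j * ((Hv C x).card - j) =
    (Hv C x).card * (2 * k).choose k

/-- HVC (40 lines): the number of pairs with `x(p.1) + x(p.2) ≤ 0` (the remaining element is heavy). -/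
def Stmt_HVC : Prop := ∀ (ι : Type) [DecidableEq ι] (C : Finset ι) (x : ι → ℝ) (k : ℕ),
  C.card = 2 * k + 1 → hvy C x k = (Hv C x).card * (2 * k).choose k

/-- CBI (50 lines), central binomials `b r = C(2r, r)` (`Nat.succ_mul_centralBinom_succ`). Induction on `s`, `k = r + 1 + s`:
equality for `s = 0`; `b (k+1-r) / b (k-r) ≤ b (k+1) / b k`. -/
def Stmt_CBI : Prop := ∀ r k : ℕ, r + 1 ≤ k →
  (2 * r + 1) * ((2 * r).choose r * (2 * (k - r)).choose (k - r)) ≤ (r + 1) * (2 * k).choose k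

/-- the numbers `NN` as binomial coefficients -/
def nb (k h j : ℕ) : ℕ := if j ≤ k then h.choose j * (2 * k + 1 - h).choose (k - j) else 0

/-- NUM (120 lines; uses CBI), arithmetic. `q j = C(h-1, j) C(2k+1-h, k-j)` for `0 ≤ j ≤ h - 1` (`0` if `j > k`), `q j = q (h-1-j)`,
`∑ q = X := C(2k, k)` (Vandermonde, `Nat.add_choose_eq`). `(h - j) nb j = h q j`. For `2 j > h` the summands for `j` and `h - j` are
both `(h - j) nb j = h q j`. `h = 2r`: the sum is `2 h ∑_(j>r) q j + r nb r = h (2 ∑_(j>r) q j + q r) = h (X - q r)`, `q r = q (r-1)`, so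
`2 q r ≤ X`. `h = 2r + 1`: the sum is `2 h ∑_(j>r) q j = h (X - q r)`, `q r = C(2r, r) C(2k-2r, k-r)`, CBI (`r + 1 ≤ k`). -/
def Stmt_NUM : Prop := ∀ k h : ℕ, h ≤ 2 * k →
  (h - h % 2) * (2 * k).choose k ≤ 2 * ∑ j ∈ range (h + 1), min j (h - j) * nb k h (max j (h - j))

/-- ONE (80 lines; uses CNT LED HED NUM). For `2 j ≤ h`: `GG j (h - j) + GG (h-j) j ≥ j NN (h-j)`: LED for `h - j`, multiplied by `j`,
and `j (k+1-(h-j)) ≤ (h-j) (k+1-j)` (if `j > k` then `NN (h-j) = 0`). So `2 ∑ GG j (h-j) ≥ ∑ min j (h-j) NN (max j (h-j))` (sum over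
`j` and over `h - j`, `Finset.sum_range_reflect`), NUM, HED: `2 bad = 2 h X - 4 ∑ ≤ 2 h X - (h - h%2) X`. -/
def Stmt_ONE : Prop := ∀ (ι : Type) [DecidableEq ι] (C : Finset ι) (x : ι → ℝ) (k : ℕ),
  C.card = 2 * k + 1 → (Hv C x).card ≤ 2 * k →
  2 * bad C x k ≤ ((Hv C x).card + (Hv C x).card % 2) * (2 * k).choose k

/-- HLE (20 lines): not all elements are heavy. -/
def Stmt_HLE : Prop := ∀ (ι : Type) [DecidableEq ι] (C : Finset ι) (x : ι → ℝ) (k : ℕ),
  C.card = 2 * k + 1 → 1 ≤ k → 0 ≤ ∑ i ∈ C, x i → (∃ i ∈ C, x i ≠ 0) → (Hv C x).card ≤ 2 * k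

/-! ### C. Blocks of `T` elements, `k = u T` -/

/-- the union of the blocks with numbers in `J` -/
def blk {ι : Type} [DecidableEq ι] (C : Finset ι) (u T : ℕ) (e : Fin (2 * u + 1) × Fin T ≃ {i // i ∈ C})
    (J : Finset (Fin (2 * u + 1))) : Finset ι :=
  (J ×ˢ (univ : Finset (Fin T))).image (fun p => (e p : ι))

/-- the block sums -/
noncomputable def bs {ι : Type} [DecidableEq ι] (C : Finset ι) (x : ι → ℝ) (u T : ℕ)
    (e : Fin (2 * u + 1) × Fin T ≃ {i // i ∈ C}) (j : Fin (2 * u + 1)) : ℝ :=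
  ∑ t : Fin T, x (e (j, t))

/-- BSU (30 lines): sums over unions of blocks. -/
def Stmt_BSU : Prop := ∀ (ι : Type) [DecidableEq ι] (C : Finset ι) (x : ι → ℝ) (u T : ℕ)
    (e : Fin (2 * u + 1) × Fin T ≃ {i // i ∈ C}) (J : Finset (Fin (2 * u + 1))),
  ∑ j ∈ J, bs C x u T e j = ∑ i ∈ blk C u T e J, x i ∧ (blk C u T e J).card = J.card * T

/-- ORB (120 lines; uses BSU), symmetry. The number of `(e, p)` with `(blk e p.1, blk e p.2) = P` is the same for all `P ∈ prs C (uT)`: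
for `P`, `P' ∈ prs C (uT)` there is a permutation `π` of `{i // i ∈ C}` with `π P = P'` (three parts of equal sizes), and `e ↦ e.trans π`
is a bijection. `N` = this number (`N = 0` if there is no `P`; there is one). The fibres: `Finset.sum_fiberwise_of_maps_to`. -/
def Stmt_ORB : Prop := ∀ (ι : Type) [DecidableEq ι] (C : Finset ι) (u T : ℕ),
  C.card = (2 * u + 1) * T → ∃ N : ℕ, 0 < N ∧ ∀ F : Finset ι → Finset ι → ℕ,
    ∑ e : Fin (2 * u + 1) × Fin T ≃ {i // i ∈ C}, ∑ p ∈ prs (univ : Finset (Fin (2 * u + 1))) u,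
      F (blk C u T e p.1) (blk C u T e p.2) = N * ∑ P ∈ prs C (u * T), F P.1 P.2

/-- ZER (100 lines): orders `e` with all block sums `0`. For such an `e` and two numbers `j < j'` the order `e'` = `e` with the
elements `(j, 0)` and `(j', 0)` exchanged has exactly two block sums which are not `0`, at `j` and `j'`, of opposite sign
(`x` is injective): exactly one is negative, `2u` are `≥ 0`. `(e, {j, j'}) ↦ e'` is injective (`j`, `j'` are the places with
nonzero block sum). There are `u (2u+1)` sets `{j, j'}`. -/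
def Stmt_ZER : Prop := ∀ (ι : Type) [DecidableEq ι] (C : Finset ι) (x : ι → ℝ) (u T : ℕ),
  C.card = (2 * u + 1) * T → 1 ≤ T → Set.InjOn x C → ∑ i ∈ C, x i = 0 →
  (univ.filter (fun e : Fin (2 * u + 1) × Fin T ≃ {i // i ∈ C} =>
      ∀ j, bs C x u T e j = 0)).card * (u * (2 * u + 1)) ≤
    (univ.filter (fun e : Fin (2 * u + 1) × Fin T ≃ {i // i ∈ C} =>
      (Hv univ (bs C x u T e)).card = 2 * u)).card

/-- LIF (150 lines; uses PAC HVC ONE HLE BSU ORB ZER). Sum over all orders `e`. `b e = bad univ (bs e) u`, `h e = |Hv univ (bs e)|`,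
`X = C(2u, u)`, `∑ bs e = c`. If not all block sums are `0` then `2 b e ≤ (h e + h e % 2) X ≤ (h e + 1) X`, and `h e ≤ 2u`. If all are `0` (only if
`c = 0`) then `2 b e ≤ 2 (2u+1) X = (h e + 1) X + 2u X`, `h e = 2u + 1`. For the orders with `h e = 2u`: `2 b e ≤ 2u X = (h e + 1) X - X`. ZER: the
number `y` of the latter is at least `z u (2u+1) ≥ 2 u z`, `z` = number of the orders with all sums `0`. So
`∑ 2 b e ≤ ∑ (h e + 1) X` (Q), and `∑ 2 b e ≤ ∑ (2u+1) X` (H): `≤ (2u+1) X` always for not all `0` (`h e + h e % 2 ≤ 2u`), and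
`2 (2u+1) z ≤ (2u+1) z + y`. ORB for `F` = indicators of bad, of `x(P.1) + x(P.2) ≤ 0`, and `1`: `∑ b e = N bad C x (uT)`,
`∑ h e X = N hvy C x (uT)` (HVC, BSU), `∑ (2u+1) X = N |prs C (uT)|` (PAC). -/
def Stmt_LIF : Prop := ∀ u T : ℕ, 1 ≤ u → 1 ≤ T → QQ (u * T) T ∧ HH (u * T) T

/-! ### D. The reduction, `n = 4k + T`, `m = 2k + T` -/

/-- ANT (60 lines): `b ∉ U`, `a ∈ U`, `x b ≤ x a`: replacing `a` by `b` only makes more halvings bad. (Bijection of the halvings: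
`B ↦ insert b (B.erase a)` if `a ∈ B`, else `B`.) -/
def Stmt_ANT : Prop := ∀ (ι : Type) [DecidableEq ι] (U : Finset ι) (x : ι → ℝ) (k : ℕ) (a b : ι),
  a ∈ U → b ∉ U → x b ≤ x a → al x k U ≤ al x k (insert b (U.erase a))

/-- MON (80 lines; uses ANT): `a` maximal in `D`. `∑_(U ∋ a) ∑_(b ∉ U) al U ≤ ∑_(U ∋ a) ∑_(b ∉ U) al (U - a + b) =
∑_(U' ∌ a) ∑_(b ∈ U') al U' = l ∑_(U' ∌ a) al U'`; there are `|D| - l` elements `b ∈ D \ U`. (For `l > |D|` all is `0`.) -/
def Stmt_MON : Prop := ∀ (ι : Type) [DecidableEq ι] (D : Finset ι) (x : ι → ℝ) (k l : ℕ) (a : ι),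
  a ∈ D → (∀ i ∈ D, x i ≤ x a) →
  D.card * ∑ U ∈ (D.powersetCard l).filter (fun U => a ∈ U), al x k U ≤
    l * ∑ U ∈ D.powersetCard l, al x k U

/-- the weights: `X` for positive `W`, `2 (X - al W)` else, `X = C(2k, k)` -/
noncomputable def wt {ι : Type} [DecidableEq ι] (x : ι → ℝ) (k : ℕ) (W : Finset ι) : ℕ :=
  if 0 < ∑ i ∈ W, x i then (2 * k).choose k else 2 * ((2 * k).choose k - al x k W)

/-- WSU (80 lines; uses PAC). `al W = 0` if `0 < x(W)` (else `B`, `W \ B` have sums `≤ 0`), `al W ≤ X`. So `∑ wt = X C(m, 2k) + X #{W ≤ 0} - 2 ∑ al`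
and by `QQ` (PAC): `m ∑ wt ≥ X (m - T) C(m, 2k) = X 2k C(m, 2k) = X m C(m-1, 2k-1)`. -/
def Stmt_WSU : Prop := ∀ (k T : ℕ), 1 ≤ k → QQ k T → ∀ (ι : Type) [DecidableEq ι] (C : Finset ι)
    (x : ι → ℝ), C.card = 2 * k + T → Set.InjOn x C → 0 ≤ ∑ i ∈ C, x i →
  (2 * k).choose k * (2 * k + T - 1).choose (2 * k - 1) ≤ ∑ W ∈ C.powersetCard (2 * k), wt x k W

/-- WAB (80 lines; uses PAC MON). `D = V \ W`. If `0 < x(W)`: `wt = X`, `al W = 0`, `al U ≤ X`, there are `C(m-1, 2k-1)` sets `U`. If `x(W) ≤ 0`: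
`x(D) ≥ 0`, HH for `D` (PAC): `2 ∑_(U ⊆ D) al U ≤ X C(m, 2k)`, MON (`l = 2k`): `m ∑_(U ∋ a) al U ≤ 2k ∑_U al U`, `2k C(m, 2k) = m C(m-1, 2k-1)`. -/
def Stmt_WAB : Prop := ∀ (k T : ℕ), 1 ≤ k → HH k T → ∀ (ι : Type) [DecidableEq ι] (V W : Finset ι)
    (x : ι → ℝ) (a : ι), V.card = 4 * k + T → Set.InjOn x V → 0 ≤ ∑ i ∈ V, x i → a ∈ V →
  (∀ i ∈ V, x i ≤ x a) → W ⊆ V → W.card = 2 * k → a ∉ W →
  wt x k W * ∑ U ∈ ((V \ W).powersetCard (2 * k)).filter (fun U => a ∈ U), al x k U ≤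
    ((2 * k).choose k - al x k W) * ((2 * k).choose k * (2 * k + T - 1).choose (2 * k - 1))

/-- FLO (120 lines; uses WSU WAB). For `U ∋ a` with `al U > 0`: `x(U) ≤ 0`, so WSU applies to `C = V \ U`:
`al U * X C(m-1,2k-1) ≤ al U * ∑_(W ⊆ V \ U) wt W`. Sum over `U ∋ a`, exchange the sums (`Finset.sum_comm'`), WAB for every `W`:
`X C(m-1,2k-1) ∑_(U ∋ a) al U ≤ X C(m-1,2k-1) ∑_(W ∌ a) (X - al W)`. Divide. So `∑_U al U ≤ ∑_(W ∌ a) X = X C(n-1, 2k)`. -/
def Stmt_FLO : Prop := ∀ (k T : ℕ), 1 ≤ k → QQ k T → HH k T → ∀ (ι : Type) [DecidableEq ι]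
    (V : Finset ι) (x : ι → ℝ), V.card = 4 * k + T → Set.InjOn x V → 0 ≤ ∑ i ∈ V, x i →
  ∑ U ∈ V.powersetCard (2 * k), al x k U ≤ (2 * k).choose k * (4 * k + T - 1).choose (2 * k)

/-- RED (80 lines; uses PAC FLO). `|prs V k| = X C(n, 2k)`, bad pairs `≤ X C(n-1, 2k)` (PAC, FLO), so at least `X C(n-1, 2k-1)` pairs have a
positive member; a positive `B` is in `C(n-k, k)` pairs as first member and in as many as second member. So
`X C(n-1, 2k-1) ≤ 2 pos C(n-k, k)`; `n C(n-1, 2k-1) = 2k C(n, 2k)`, `X C(n, 2k) = C(n, k) C(n-k, k)`. -/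
def Stmt_RED : Prop := ∀ (k T : ℕ), 1 ≤ k → QQ k T → HH k T →
  Pool.Agent.Work.MaxSums.W k (4 * k + T) ((k : ℝ) / (4 * k + T))

/-! ### E. The result -/

/-- FIN (100 lines; uses LIF RED). `T ∣ k`, `k = u T`. `W k (4k+T) (k/(4k+T))`, then `W k n (k/n)` for all `n = 4k + T + j k` by
`helper93Recursion.holds` (`φ/(1+φ)`, see `mul` in `MP_9999b5_ms_helper84/Div.lean`). For `n = 4k + j k`: `Divisible` (`helper84Div.pos_ge`, as in
`Results/MP_9999b5_co/Divisible.lean`). Then `isGreatest_of` and `Transfer.MMS_of_greatest` (`MP_9999b5_ms_helper84/Transfer4.lean`). -/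
def Stmt_FIN : Prop := ∀ k n T : ℕ, 0 < k → 4 * k ≤ n → T ∣ k → n ≡ T [MOD k] →
  IsGreatest (Pool.Agent.Work.MaxSums.values k n) ((n - 1).choose k) ∧
    Pool.Agent.Work.MaxSums.MMS k n

end Pool.Agent.Work.MP_9999b5_mr
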